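import Mathlib

/-!
# Ramsey numbers for subspaces of `𝔽₂ⁿ`: definitions (MP_bc06f7_co)
-/

set_option autoImplicit false

namespace Pool.Agent.RF

open Module

/-- `A` contains no `x, y, x + y` (in characteristic two this includes `0 ∉ A`). -/
def SumFree {E : Type*} [Add E] (A : Set E) : Prop :=
  ∀ x ∈ A, ∀ y ∈ A, x + y ∉ A

/-- `A` meets every `d`-dimensional subspace. -/
def Hits {E : Type*} [AddCommGroup E] [Module (ZMod 2) E] (A : Set E) (d : ℕ) : Prop :=
  ∀ V : Submodule (ZMod 2) E, finrank (ZMod 2) V = d → ∃ v ∈ V, v ∈ A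

/-- There are `s` sum-free sets in `E` whose union meets every `d`-dimensional subspace. -/
def AvOn (s d : ℕ) (E : Type*) [AddCommGroup E] [Module (ZMod 2) E] : Prop :=
  ∃ A : Fin s → Set E, (∀ i, SumFree (A i)) ∧
    ∀ V : Submodule (ZMod 2) E, finrank (ZMod 2) V = d → ∃ i, ∃ v ∈ V, v ∈ A i

/-- There are `s` sum-free sets in `𝔽₂ⁿ` whose union meets every `d`-dimensional subspace. -/
def Av (s d n : ℕ) : Prop := AvOn s d (Fin n → ZMod 2)

/-- Every `r`-colouring of the nonzero vectors of `𝔽₂ⁿ` (the colours are `0, …, r - 1`; the value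
of `c` at `0` plays no role) has a `2`-dimensional subspace which is monochromatic in one of the
first `r - 1` colours, or a `d`-dimensional subspace which is monochromatic in the last colour. -/
def Forces (r d n : ℕ) : Prop :=
  ∀ c : (Fin n → ZMod 2) → Fin r,
    (∃ i : Fin r, (i : ℕ) + 1 < r ∧ ∃ V : Submodule (ZMod 2) (Fin n → ZMod 2),
      finrank (ZMod 2) V = 2 ∧ ∀ v ∈ V, v ≠ 0 → c v = i) ∨
    (∃ V : Submodule (ZMod 2) (Fin n → ZMod 2),
      finrank (ZMod 2) V = d ∧ ∀ v ∈ V, v ≠ 0 → (c v : ℕ) + 1 = r)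

/-- The Ramsey number `R_{𝔽₂}^{(r)}(2; d) = R_{𝔽₂}(2, …, 2, d)` with `r - 1` entries `2`. -/
noncomputable def Ram (r d : ℕ) : ℕ := sInf {n | Forces r d n}

end Pool.Agent.RF
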