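import Mathlib
import Pool.Agent.Helper74.RF.Defs

/-!
# RF-1: basic facts on `Av`, and the dictionary with colourings

Proofs.
* `avOn_equiv`: transport the sets by `e` (use images or preimages under `e.symm`); a subspace `V`
  of `F` of dimension `d` corresponds to `V.comap e` of the same dimension.
* `avOn_iff`: `E` is linearly equivalent to `Fin (finrank E) → ZMod 2`
  (`Module.finBasis`, `Basis.equivFun`).
* `av_anti`: for `n' ≤ n` embed `𝔽₂^{n'}` into `𝔽₂ⁿ` linearly and injectively and take preimages of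
  the sets (sum-free since `x ↦ ι x` is additive; a `d`-dimensional subspace of `𝔽₂^{n'}` has a
  `d`-dimensional image).
* `av_mono_d`: a subspace of dimension `d' ≥ d` contains one of dimension `d`.
* `av_mono_s`: add empty sets.
* `not_forces_iff`. From a colouring `c` with neither kind of subspace put
  `A i = {v | v ≠ 0 ∧ c v = i.castSucc}`, `i : Fin s`. If `x, y, x + y ∈ A i` then `x ≠ y` and the
  span of `x, y` is two-dimensional with nonzero vectors `x, y, x + y` of colour `i`. If `V` has
  dimension `d` then some nonzero `v ∈ V` has a colour different from the last one.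
  Conversely let `c v = i` for the least `i` with `v ∈ A i`, and the last colour if there is none.
  A two-dimensional `V` with all nonzero vectors of colour `i` contains distinct nonzero `x, y` and
  `x + y`, all in `A i`. A `d`-dimensional `V` contains a point `v` of some `A i`, `v ≠ 0`.
* `av_of_lt`: there is no subspace of dimension `d > n`.
* `av_lift`: if `p : E → F` is linear, the kernel has dimension `≤ k` then
  the preimages of the sets hit every subspace of dimension `d + k`.
-/

set_option autoImplicit false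

namespace Pool.Agent.RF

open Module

theorem SumFree.zero_notMem {E : Type*} [AddMonoid E] {A : Set E} (h : SumFree A) :
    (0 : E) ∉ A := fun h0 => h 0 h0 0 h0 (by simpa using h0)

theorem SumFree.preimage {E F G : Type*} [Add E] [Add F] [FunLike G E F] [AddHomClass G E F]
    {A : Set F} (h : SumFree A) (f : G) : SumFree (f ⁻¹' A) := fun x hx y hy hxy =>
  h (f x) hx (f y) hy (by simpa [map_add] using hxy)

private lemma avOn_of_injective {s d : ℕ} {E F : Type*} [AddCommGroup E] [Module (ZMod 2) E]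
    [AddCommGroup F] [Module (ZMod 2) F] (f : E →ₗ[ZMod 2] F) (hf : Function.Injective f)
    (h : AvOn s d F) : AvOn s d E := by
  obtain ⟨A, hA, hV⟩ := h
  refine ⟨fun i => f ⁻¹' (A i), fun i => (hA i).preimage f, fun V hVd => ?_⟩
  have h1 : finrank (ZMod 2) (V.map f) = d := by
    rw [← hVd]
    exact (LinearEquiv.finrank_eq (Submodule.equivMapOfInjective f hf V)).symm
  obtain ⟨i, w, ⟨v, hv, rfl⟩, hw⟩ := hV _ h1
  exact ⟨i, v, hv, hw⟩

private lemma exists_sub {E : Type*} [AddCommGroup E] [Module (ZMod 2) E] {d : ℕ}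
    (V : Submodule (ZMod 2) E) (hd : d ≤ finrank (ZMod 2) V) :
    ∃ U : Submodule (ZMod 2) E, U ≤ V ∧ finrank (ZMod 2) U = d := by
  obtain ⟨f, hf⟩ := exists_linearIndependent_of_le_finrank hd
  have h1 : LinearIndependent (ZMod 2) (V.subtype ∘ f) :=
    hf.map' V.subtype (Submodule.ker_subtype V)
  refine ⟨Submodule.span (ZMod 2) (Set.range (V.subtype ∘ f)), ?_, ?_⟩
  · rw [Submodule.span_le]
    rintro _ ⟨i, rfl⟩
    exact (f i).2
  · rw [finrank_span_eq_card h1, Fintype.card_fin]

theorem avOn_equiv {s d : ℕ} {E F : Type*} [AddCommGroup E] [Module (ZMod 2) E] [AddCommGroup F]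
    [Module (ZMod 2) F] (e : E ≃ₗ[ZMod 2] F) (h : AvOn s d E) : AvOn s d F :=
  avOn_of_injective e.symm.toLinearMap e.symm.injective h

theorem avOn_iff {s d : ℕ} {E : Type*} [AddCommGroup E] [Module (ZMod 2) E]
    [Module.Finite (ZMod 2) E] : AvOn s d E ↔ Av s d (finrank (ZMod 2) E) := by
  have e : E ≃ₗ[ZMod 2] (Fin (finrank (ZMod 2) E) → ZMod 2) :=
    (Module.finBasis (ZMod 2) E).equivFun
  exact ⟨avOn_equiv e, avOn_equiv e.symm⟩

theorem av_anti {s d n n' : ℕ} (h : Av s d n) (hn : n' ≤ n) : Av s d n' := by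
  let f : (Fin n' → ZMod 2) →ₗ[ZMod 2] (Fin n → ZMod 2) :=
    { toFun := fun x i => if h : (i : ℕ) < n' then x ⟨i, h⟩ else 0
      map_add' := by
        intro x y
        funext i
        simp only [Pi.add_apply]
        split_ifs <;> simp
      map_smul' := by
        intro r x
        funext i
        simp only [Pi.smul_apply, RingHom.id_apply]
        split_ifs <;> simp }
  refine avOn_of_injective f ?_ h
  intro x y hxy
  funext i
  have h1 := congrFun hxy ⟨i, lt_of_lt_of_le i.2 hn⟩
  have h2 : ∀ z : Fin n' → ZMod 2, f z ⟨i, lt_of_lt_of_le i.2 hn⟩ = z i := by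
    intro z
    show (if h : (i : ℕ) < n' then z ⟨i, h⟩ else 0) = z i
    rw [dif_pos i.2]
  rw [h2, h2] at h1
  exact h1

theorem av_mono_d {s d d' n : ℕ} (h : Av s d n) (hd : d ≤ d') : Av s d' n := by
  obtain ⟨A, hA, hV⟩ := h
  refine ⟨A, hA, fun V hVd => ?_⟩
  obtain ⟨U, hU, hUd⟩ := exists_sub V (d := d) (by omega)
  obtain ⟨i, v, hv, hvi⟩ := hV U hUd
  exact ⟨i, v, hU hv, hvi⟩

theorem av_mono_s {s s' d n : ℕ} (h : Av s d n) (hs : s ≤ s') : Av s' d n := by
  obtain ⟨A, hA, hV⟩ := h
  refine ⟨fun i => if hi : (i : ℕ) < s then A ⟨i, hi⟩ else ∅, fun i => ?_, fun V hVd => ?_⟩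
  · show SumFree (if hi : (i : ℕ) < s then A ⟨i, hi⟩ else ∅)
    split_ifs with hi
    · exact hA _
    · intro x hx
      exact absurd hx (Set.notMem_empty x)
  · obtain ⟨i, v, hv, hvi⟩ := hV V hVd
    refine ⟨⟨i, lt_of_lt_of_le i.2 hs⟩, v, hv, ?_⟩
    show v ∈ (if hi : (i : ℕ) < s then A ⟨i, hi⟩ else ∅)
    rw [dif_pos i.2]
    exact hvi

theorem av_of_lt {s d n : ℕ} (h : n < d) : Av s d n := by
  refine ⟨fun _ => ∅, fun _ x hx => absurd hx (Set.notMem_empty x), fun V hVd => ?_⟩
  have h1 := Submodule.finrank_le V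
  rw [hVd, finrank_fin_fun] at h1
  omega

/-- `{x | x 0 ≠ 0}` meets the whole space: `Av s n n` for `s, n ≥ 1`. -/
theorem av_self {s n : ℕ} (hs : 1 ≤ s) (hn : 1 ≤ n) : Av s n n := by
  refine ⟨fun _ => {x | x ⟨0, hn⟩ ≠ 0}, fun _ x hx y hy hxy => ?_, fun V hVd => ?_⟩
  · have h1 : ∀ a b : ZMod 2, a ≠ 0 → b ≠ 0 → a + b = 0 := by decide
    exact hxy (h1 _ _ hx hy)
  · have h1 : V = ⊤ := Submodule.eq_top_of_finrank_eq (by rw [hVd, finrank_fin_fun])
    refine ⟨⟨0, hs⟩, fun _ => 1, by rw [h1]; exact Submodule.mem_top, ?_⟩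
    show (1 : ZMod 2) ≠ 0
    decide

theorem not_av_zero {s n : ℕ} : ¬ Av s 0 n := by
  rintro ⟨A, hA, hV⟩
  obtain ⟨i, v, hv, hvi⟩ := hV ⊥ (finrank_bot _ _)
  rw [Submodule.mem_bot] at hv
  rw [hv] at hvi
  exact (hA i).zero_notMem hvi

theorem av_lift {s d n k : ℕ} (h : Av s d n) : Av s (d + k) (n + k) := by
  obtain ⟨A, hA, hV⟩ := h
  let f : (Fin (n + k) → ZMod 2) →ₗ[ZMod 2] (Fin n → ZMod 2) :=
    LinearMap.funLeft (ZMod 2) (ZMod 2) (Fin.castAdd k)
  refine ⟨fun i => f ⁻¹' (A i), fun i => (hA i).preimage f, fun V hVd => ?_⟩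
  have hsurj : Function.Surjective f :=
    LinearMap.funLeft_surjective_of_injective _ _ _ (Fin.castAdd_injective n k)
  have hker : finrank (ZMod 2) (LinearMap.ker f) = k := by
    have h1 := LinearMap.finrank_range_add_finrank_ker f
    rw [LinearMap.range_eq_top.2 hsurj, finrank_top, finrank_fin_fun, finrank_fin_fun] at h1
    omega
  have h1 := LinearMap.finrank_range_add_finrank_ker (f.domRestrict V)
  have h2 : LinearMap.range (f.domRestrict V) = V.map f := by
    ext y
    simp [Submodule.mem_map]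
  have h3 : finrank (ZMod 2) (LinearMap.ker (f.domRestrict V)) ≤ k := by
    refine le_trans ?_ hker.le
    rw [LinearEquiv.finrank_eq (Submodule.equivMapOfInjective _ V.subtype_injective
      (LinearMap.ker (f.domRestrict V)))]
    refine Submodule.finrank_mono ?_
    rintro _ ⟨x, hx, rfl⟩
    exact hx
  rw [h2, hVd] at h1
  obtain ⟨U, hU, hUd⟩ := exists_sub (V.map f) (d := d) (by omega)
  obtain ⟨i, w, hw, hwi⟩ := hV U hUd
  obtain ⟨v, hv, rfl⟩ := hU hw
  exact ⟨i, v, hv, hwi⟩

private lemma zmod2_cases : ∀ a : ZMod 2, a = 0 ∨ a = 1 := by decide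

theorem not_forces_iff {s d n : ℕ} : ¬ Forces (s + 1) d n ↔ Av s d n := by
  classical
  constructor
  · intro h
    unfold Forces at h
    push Not at h
    obtain ⟨c, h1, h2⟩ := h
    refine ⟨fun i => {v | v ≠ 0 ∧ c v = i.castSucc}, fun i x hx y hy hxy => ?_, fun V hVd => ?_⟩
    · have hxy0 : x ≠ y := by
        rintro rfl
        refine hxy.1 ?_
        funext j
        show x j + x j = 0
        exact CharTwo.add_self_eq_zero _
      have hlin : LinearIndependent (ZMod 2) ![x, y] := by
        rw [LinearIndependent.pair_iff]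
        intro a b hab
        rcases zmod2_cases a with rfl | rfl <;> rcases zmod2_cases b with rfl | rfl
        · exact ⟨rfl, rfl⟩
        · rw [zero_smul, one_smul, zero_add] at hab
          exact absurd hab hy.1
        · rw [zero_smul, one_smul, add_zero] at hab
          exact absurd hab hx.1
        · rw [one_smul, one_smul] at hab
          exact absurd hab hxy.1
      have hfr : finrank (ZMod 2) (Submodule.span (ZMod 2) {x, y}) = 2 := by
        have h3 := finrank_span_eq_card hlin
        rw [Fintype.card_fin] at h3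
        have h4 : Set.range ![x, y] = {x, y} := by
          simp [Matrix.range_cons, Matrix.range_empty, Set.pair_comm]
        rw [h4] at h3
        exact h3
      obtain ⟨v, hv, hv0, hvc⟩ := h1 i.castSucc (by simp) _ hfr
      apply hvc
      rw [Submodule.mem_span_pair] at hv
      obtain ⟨a, b, rfl⟩ := hv
      rcases zmod2_cases a with rfl | rfl <;> rcases zmod2_cases b with rfl | rfl
      · exact absurd (by simp) hv0
      · rw [zero_smul, one_smul, zero_add]; exact hy.2
      · rw [zero_smul, one_smul, add_zero]; exact hx.2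
      · rw [one_smul, one_smul]; exact hxy.2
    · obtain ⟨v, hv, hv0, hvc⟩ := h2 V hVd
      have h3 : (c v : ℕ) < s := by
        have := (c v).2
        omega
      exact ⟨⟨c v, h3⟩, v, hv, hv0, Fin.ext rfl⟩
  · rintro ⟨A, hA, hV⟩ hF
    let c : (Fin n → ZMod 2) → Fin (s + 1) := fun v =>
      if h : ∃ i, v ∈ A i then h.choose.castSucc else Fin.last s
    have hc1 : ∀ v (i : Fin (s + 1)) (hi : (i : ℕ) < s), c v = i → v ∈ A ⟨i, hi⟩ := by
      intro v i hi hv
      by_cases h : ∃ i, v ∈ A i
      · have h3 : c v = h.choose.castSucc := dif_pos h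
        have h4 := h.choose_spec
        have h5 : h.choose = ⟨i, hi⟩ := by
          refine Fin.ext ?_
          show (h.choose : ℕ) = (i : ℕ)
          rw [← hv, h3]
          rfl
        rw [h5] at h4
        exact h4
      · have h3 : c v = Fin.last s := dif_neg h
        rw [h3] at hv
        rw [← hv] at hi
        simp at hi
    have hc2 : ∀ v, (∃ i, v ∈ A i) → (c v : ℕ) < s := by
      intro v h
      have h3 : c v = h.choose.castSucc := dif_pos h
      rw [h3]
      exact h.choose.2
    rcases hF c with ⟨i, hi, V, hVd, hmono⟩ | ⟨V, hVd, hmono⟩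
    · have hi' : (i : ℕ) < s := by omega
      obtain ⟨f, hf⟩ := exists_linearIndependent_of_le_finrank (R := ZMod 2) (M := V)
        (n := 2) hVd.ge
      have hf1 : LinearIndependent (ZMod 2) (V.subtype ∘ f) :=
        hf.map' V.subtype (Submodule.ker_subtype V)
      have hx0 : ((f 0 : V) : Fin n → ZMod 2) ≠ 0 := hf1.ne_zero 0
      have hy0 : ((f 1 : V) : Fin n → ZMod 2) ≠ 0 := hf1.ne_zero 1
      have hxy0 : ((f 0 : V) : Fin n → ZMod 2) + ((f 1 : V) : Fin n → ZMod 2) ≠ 0 := by
        intro h3
        have h4 : ((f 0 : V) : Fin n → ZMod 2) = ((f 1 : V) : Fin n → ZMod 2) := by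
          funext j
          have h5 := congrFun h3 j
          have h6 : ∀ a b : ZMod 2, a + b = 0 → a = b := by decide
          exact h6 _ _ h5
        have h7 := hf1.injective h4
        exact absurd h7 (by decide)
      have k1 := hc1 _ i hi' (hmono _ (f 0).2 hx0)
      have k2 := hc1 _ i hi' (hmono _ (f 1).2 hy0)
      have k3 := hc1 _ i hi' (hmono _ (V.add_mem (f 0).2 (f 1).2) hxy0)
      exact hA _ _ k1 _ k2 k3
    · obtain ⟨i, v, hv, hvi⟩ := hV V hVd
      have hv0 : v ≠ 0 := by
        rintro rfl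
        exact (hA i).zero_notMem hvi
      have h3 := hmono v hv hv0
      have h4 := hc2 v ⟨i, hvi⟩
      omega

end Pool.Agent.RF
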