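import Mathlib

/-!
# RF-3: random choice with a union bound

Proof. Let `N = ∏ x, |Ω x|` be the number of all choices. For `v : ι` the number of `ω` with
`ω x ∉ G v x` for all `x ∈ S v` is
`∏_{x ∈ S v} (|Ω x| - |G v x|) * ∏_{x ∉ S v} |Ω x| ≤ N * (1 - 2^{-k v})^{|S v|}` (it is the
cardinality of a `Fintype.piFinset` or a `Set.pi`), and
`(1 - 2^{-k})^{|S|} ≤ (1 - 2^{-k})^{2^k m} ≤ exp (-m)` (from `1 - x ≤ exp (-x)`).
Summing over `v` the number of bad `ω` is at most `N * 2^m * exp (-m) < N` since `m ≥ 1` and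
`2 < exp 1`.
-/

set_option autoImplicit false

namespace Pool.Agent.RF

theorem choice_pow_le (k m c : ℕ) (hc : 2 ^ k * m ≤ c) :
    (1 - ((2 : ℝ) ^ k)⁻¹) ^ c ≤ Real.exp (-(m : ℝ)) := by
  have h2 : (0 : ℝ) < (2 : ℝ) ^ k := by positivity
  have h1 : (1 : ℝ) ≤ (2 : ℝ) ^ k := one_le_pow₀ (by norm_num)
  have hr0 : 0 ≤ 1 - ((2 : ℝ) ^ k)⁻¹ := by
    have := inv_le_one_of_one_le₀ h1
    linarith
  have hr1 : 1 - ((2 : ℝ) ^ k)⁻¹ ≤ 1 := by
    have : 0 < ((2 : ℝ) ^ k)⁻¹ := by positivity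
    linarith
  calc (1 - ((2 : ℝ) ^ k)⁻¹) ^ c ≤ (1 - ((2 : ℝ) ^ k)⁻¹) ^ (2 ^ k * m) :=
        pow_le_pow_of_le_one hr0 hr1 hc
    _ = ((1 - ((2 : ℝ) ^ k)⁻¹) ^ (2 ^ k)) ^ m := pow_mul _ _ _
    _ ≤ ((Real.exp (-((2 : ℝ) ^ k)⁻¹)) ^ (2 ^ k)) ^ m := by
        apply pow_le_pow_left₀ (pow_nonneg hr0 _)
        exact pow_le_pow_left₀ hr0 (Real.one_sub_le_exp_neg _) _
    _ = Real.exp (-(m : ℝ)) := by
        rw [← Real.exp_nat_mul, ← Real.exp_nat_mul]
        congr 1
        push_cast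
        field_simp

theorem random_choice {ι X : Type*} [Finite ι] [Finite X] {Ω : X → Type*}
    [∀ x, Finite (Ω x)] [∀ x, Nonempty (Ω x)] (m : ℕ) (hm : 1 ≤ m) (hι : Nat.card ι ≤ 2 ^ m)
    (S : ι → Finset X) (G : ∀ (_ : ι) (x : X), Set (Ω x)) (k : ι → ℕ)
    (hS : ∀ v, 2 ^ (k v) * m ≤ (S v).card)
    (hG : ∀ v, ∀ x ∈ S v, Nat.card (Ω x) ≤ 2 ^ (k v) * (G v x).ncard) :
    ∃ ω : ∀ x, Ω x, ∀ v, ∃ x ∈ S v, ω x ∈ G v x := by
  classical
  haveI := Fintype.ofFinite ι
  haveI := Fintype.ofFinite X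
  haveI := fun x => Fintype.ofFinite (Ω x)
  by_contra hcon
  have hcon' : ∀ ω : (∀ x, Ω x), ∃ v, ∀ x ∈ S v, ω x ∉ G v x := by
    intro ω
    by_contra h
    apply hcon
    refine ⟨ω, fun v => ?_⟩
    by_contra h'
    apply h
    refine ⟨v, fun x hx hg => h' ⟨x, hx, hg⟩⟩
  let B : ι → Finset (∀ x, Ω x) := fun v => Fintype.piFinset
    (fun x => if x ∈ S v then Finset.univ.filter (fun y => y ∉ G v x) else Finset.univ)
  set N : ℝ := ∏ x, (Fintype.card (Ω x) : ℝ) with hN
  have hN0 : 0 < N := Finset.prod_pos (fun x _ => by exact_mod_cast Fintype.card_pos)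
  have hcardB : ∀ v, ((B v).card : ℝ) ≤ N * Real.exp (-(m : ℝ)) := by
    intro v
    have h2 : (0 : ℝ) < (2 : ℝ) ^ (k v) := by positivity
    have h1 : (1 : ℝ) ≤ (2 : ℝ) ^ (k v) := one_le_pow₀ (by norm_num)
    set r : ℝ := 1 - ((2 : ℝ) ^ (k v))⁻¹ with hr
    have hr0 : 0 ≤ r := by
      have := inv_le_one_of_one_le₀ h1
      rw [hr]
      linarith
    have e1 : ((B v).card : ℝ) = ∏ x, (((if x ∈ S v then Finset.univ.filter (fun y => y ∉ G v x)
        else Finset.univ : Finset (Ω x)).card : ℕ) : ℝ) := by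
      simp only [B]
      rw [Fintype.card_piFinset]
      push_cast
      rfl
    have e2 : ∀ x, (((if x ∈ S v then Finset.univ.filter (fun y => y ∉ G v x)
        else Finset.univ : Finset (Ω x)).card : ℕ) : ℝ) ≤
        (Fintype.card (Ω x) : ℝ) * (if x ∈ S v then r else 1) := by
      intro x
      by_cases hx : x ∈ S v
      · rw [if_pos hx, if_pos hx]
        have h3 := hG v x hx
        rw [Nat.card_eq_fintype_card] at h3
        have h4 : (G v x).ncard + (Finset.univ.filter (fun y => y ∉ G v x)).card =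
            Fintype.card (Ω x) := by
          rw [Set.ncard_eq_toFinset_card' (G v x)]
          have : (G v x).toFinset = Finset.univ.filter (fun y => y ∈ G v x) := by
            ext y
            simp
          rw [this, Finset.card_filter_add_card_filter_not]
          rfl
        have h5 : (Fintype.card (Ω x) : ℝ) ≤ (2 : ℝ) ^ (k v) * ((G v x).ncard : ℝ) := by
          exact_mod_cast h3
        have h6 : ((G v x).ncard : ℝ) + ((Finset.univ.filter (fun y => y ∉ G v x)).card : ℝ) =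
            (Fintype.card (Ω x) : ℝ) := by exact_mod_cast h4
        have h7 : (Fintype.card (Ω x) : ℝ) * ((2 : ℝ) ^ (k v))⁻¹ ≤ ((G v x).ncard : ℝ) := by
          rw [← div_eq_mul_inv, div_le_iff₀ h2, mul_comm]
          exact h5
        rw [hr]
        nlinarith
      · rw [if_neg hx, if_neg hx, mul_one]
        exact_mod_cast Finset.card_le_univ _
    rw [e1]
    calc ∏ x, (((if x ∈ S v then Finset.univ.filter (fun y => y ∉ G v x)
          else Finset.univ : Finset (Ω x)).card : ℕ) : ℝ)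
        ≤ ∏ x, (Fintype.card (Ω x) : ℝ) * (if x ∈ S v then r else 1) :=
          Finset.prod_le_prod (fun x _ => Nat.cast_nonneg _) (fun x _ => e2 x)
      _ = N * r ^ (S v).card := by
          rw [Finset.prod_mul_distrib, hN]
          congr 1
          rw [Finset.prod_ite_mem, Finset.univ_inter, Finset.prod_const]
      _ ≤ N * Real.exp (-(m : ℝ)) :=
          mul_le_mul_of_nonneg_left (choice_pow_le _ _ _ (hS v)) hN0.le
  have hcov : (Finset.univ : Finset (∀ x, Ω x)) ⊆ Finset.univ.biUnion B := by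
    intro ω _
    obtain ⟨v, hv⟩ := hcon' ω
    rw [Finset.mem_biUnion]
    refine ⟨v, Finset.mem_univ _, ?_⟩
    simp only [B, Fintype.mem_piFinset]
    intro x
    by_cases hx : x ∈ S v
    · rw [if_pos hx]
      exact Finset.mem_filter.2 ⟨Finset.mem_univ _, hv x hx⟩
    · rw [if_neg hx]
      exact Finset.mem_univ _
  have h1 : N ≤ ∑ v, ((B v).card : ℝ) := by
    have h2 := (Finset.card_le_card hcov).trans Finset.card_biUnion_le
    rw [Finset.card_univ, Fintype.card_pi] at h2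
    rw [hN]
    exact_mod_cast h2
  have h3 : ∑ v, ((B v).card : ℝ) ≤ (2 : ℝ) ^ m * (N * Real.exp (-(m : ℝ))) := by
    calc ∑ v, ((B v).card : ℝ) ≤ ∑ _v : ι, N * Real.exp (-(m : ℝ)) :=
          Finset.sum_le_sum (fun v _ => hcardB v)
      _ = (Fintype.card ι : ℝ) * (N * Real.exp (-(m : ℝ))) := by
          rw [Finset.sum_const, nsmul_eq_mul, Finset.card_univ]
      _ ≤ (2 : ℝ) ^ m * (N * Real.exp (-(m : ℝ))) := by
          apply mul_le_mul_of_nonneg_right _ (by positivity)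
          rw [Nat.card_eq_fintype_card] at hι
          exact_mod_cast hι
  have h4 : (2 : ℝ) ^ m * Real.exp (-(m : ℝ)) < 1 := by
    have h5 : Real.exp (-(m : ℝ)) = (Real.exp 1)⁻¹ ^ m := by
      rw [← Real.exp_neg, ← Real.exp_nat_mul]
      congr 1
      ring
    rw [h5, ← mul_pow]
    apply pow_lt_one₀ (by positivity) _ (by omega)
    rw [← div_eq_mul_inv, div_lt_one (Real.exp_pos 1)]
    have := Real.exp_one_gt_d9
    linarith
  have h6 : N ≤ N * ((2 : ℝ) ^ m * Real.exp (-(m : ℝ))) := by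
    calc N ≤ _ := h1
      _ ≤ _ := h3
      _ = _ := by ring
  nlinarith

end Pool.Agent.RF
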