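import Mathlib
import Pool.Agent.Helper74.RF.Defs

/-!
# RF-2: counting cosets, and counting subspaces

Proof of `coset_count`. Put `n = finrank E`, `τ = finrank T`, `a = |A + T|`. Suppose
`a < 2^(n-d+τ)`, so `a + 1 ≤ 2^(n-d+τ)`. Show by induction on `j`, `τ ≤ j ≤ d`, that there is a
subspace `V ≥ T` of dimension `j` with `V ∩ A = ∅` and `|A + V| ≤ 2^(j-τ) * a`.
Start: `V = T`. Step, `j < d`: `|A + V| + |V| ≤ 2^(j-τ) * a + 2^j ≤
2^(n-d+j) - 2^(j-τ) + 2^j ≤ 2^(n-1) + 2^(n-1) - 1 < 2^n`, so there is `x ∉ V`, `x ∉ A + V`.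
`V' = V + ⟨x⟩` has dimension `j + 1` and consists of the `v` and the `x + v`, `v ∈ V`; `x + v ∉ A`
(otherwise `x = (x + v) + v ∈ A + V`, characteristic two). `A + V' = (A + V) ∪ (x + (A + V))`, so
`|A + V'| ≤ 2 |A + V|`. For `j = d` this contradicts `hA`.

`card_subspaces_le`: `V ↦` (a basis of `V`) is an injection into `Fin d → E`.
-/

set_option autoImplicit false

namespace Pool.Agent.RF

open Module

/-- the set `A + V` -/
def count_add {E : Type*} [AddCommGroup E] [Module (ZMod 2) E] (A : Set E)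
    (V : Submodule (ZMod 2) E) : Set E := {x : E | ∃ a ∈ A, ∃ t ∈ V, x = a + t}

theorem count_two {E : Type*} [AddCommGroup E] [Module (ZMod 2) E] (x : E) : x + x = 0 := by
  have h : (1 + 1 : ZMod 2) = 0 := by decide
  rw [← one_smul (ZMod 2) x, ← add_smul, h, zero_smul]

theorem count_card {E : Type*} [AddCommGroup E] [Module (ZMod 2) E] [Finite E] :
    Nat.card E = 2 ^ finrank (ZMod 2) E := by
  haveI := Fintype.ofFinite E
  rw [Nat.card_eq_fintype_card, Module.card_eq_pow_finrank (K := ZMod 2), ZMod.card]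

theorem count_ncard {E : Type*} [AddCommGroup E] [Module (ZMod 2) E] [Finite E]
    (V : Submodule (ZMod 2) E) : (V : Set E).ncard = 2 ^ finrank (ZMod 2) V := by
  rw [← count_card (E := V), ← Nat.card_coe_set_eq]
  rfl

theorem count_step {E : Type*} [AddCommGroup E] [Module (ZMod 2) E] [Finite E] (A : Set E)
    (V : Submodule (ZMod 2) E) (hV : ∀ v ∈ V, v ∉ A)
    (hc : (count_add A V).ncard + 2 ^ finrank (ZMod 2) V < 2 ^ finrank (ZMod 2) E) :
    ∃ V' : Submodule (ZMod 2) E, V ≤ V' ∧ finrank (ZMod 2) V' = finrank (ZMod 2) V + 1 ∧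
      (∀ v ∈ V', v ∉ A) ∧ (count_add A V').ncard ≤ 2 * (count_add A V).ncard := by
  classical
  have hex : ∃ x : E, x ∉ V ∧ x ∉ count_add A V := by
    by_contra hcon
    have huniv : (Set.univ : Set E) ⊆ count_add A V ∪ (V : Set E) := by
      intro x _
      by_contra hx
      apply hcon
      refine ⟨x, fun h => hx (Or.inr h), fun h => hx (Or.inl h)⟩
    have h1 := Set.ncard_le_ncard huniv (Set.toFinite _)
    have h2 := Set.ncard_union_le (count_add A V) (V : Set E)
    rw [Set.ncard_univ, count_card] at h1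
    rw [count_ncard] at h2
    omega
  obtain ⟨x, hxV, hxA⟩ := hex
  have hx0 : x ≠ 0 := fun h => hxV (h ▸ V.zero_mem)
  have hmem : ∀ v, v ∈ V ⊔ Submodule.span (ZMod 2) {x} → v ∈ V ∨ ∃ w ∈ V, v = x + w := by
    intro v hv
    obtain ⟨w, hw, y, hy, rfl⟩ := Submodule.mem_sup.1 hv
    obtain ⟨c, rfl⟩ := Submodule.mem_span_singleton.1 hy
    have hall : ∀ c : ZMod 2, c = 0 ∨ c = 1 := by decide
    have hc2 : c = 0 ∨ c = 1 := hall c
    rcases hc2 with rfl | rfl
    · left
      simpa using hw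
    · right
      refine ⟨w, hw, ?_⟩
      rw [one_smul, add_comm]
  refine ⟨V ⊔ Submodule.span (ZMod 2) {x}, le_sup_left, ?_, ?_, ?_⟩
  · have h1 := Submodule.finrank_sup_add_finrank_inf_eq V (Submodule.span (ZMod 2) {x})
    have h2 : V ⊓ Submodule.span (ZMod 2) {x} = ⊥ :=
      ((Submodule.disjoint_span_singleton' hx0).2 hxV).eq_bot
    rw [h2, finrank_bot, add_zero, finrank_span_singleton hx0] at h1
    exact h1
  · intro v hv hvA
    rcases hmem v hv with h | ⟨w, hw, rfl⟩
    · exact hV v h hvA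
    · apply hxA
      refine ⟨x + w, hvA, w, hw, ?_⟩
      rw [add_assoc, count_two, add_zero]
  · have hsub : count_add A (V ⊔ Submodule.span (ZMod 2) {x}) ⊆
        count_add A V ∪ (fun y => x + y) '' (count_add A V) := by
      rintro y ⟨a, ha, t, ht, rfl⟩
      rcases hmem t ht with h | ⟨w, hw, rfl⟩
      · left
        exact ⟨a, ha, t, h, rfl⟩
      · right
        refine ⟨a + w, ⟨a, ha, w, hw, rfl⟩, ?_⟩
        simp only
        abel
    have h1 := Set.ncard_le_ncard hsub (Set.toFinite _)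
    have h2 := Set.ncard_union_le (count_add A V) ((fun y => x + y) '' (count_add A V))
    have h3 := Set.ncard_image_le (f := fun y => x + y) (Set.toFinite (count_add A V))
    omega

theorem coset_count {E : Type*} [AddCommGroup E] [Module (ZMod 2) E] [Finite E] (A : Set E)
    (d : ℕ) (T : Submodule (ZMod 2) E) (hT : ∀ v ∈ T, v ∉ A) (hτ : finrank (ZMod 2) T ≤ d)
    (hd : d ≤ finrank (ZMod 2) E)
    (hA : ∀ V : Submodule (ZMod 2) E, finrank (ZMod 2) V = d → T ≤ V → ∃ v ∈ V, v ∈ A) :
    2 ^ (finrank (ZMod 2) E - d + finrank (ZMod 2) T) ≤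
      Set.ncard {x : E | ∃ a ∈ A, ∃ t ∈ T, x = a + t} := by
  by_contra hcon
  have hlt : (count_add A T).ncard < 2 ^ (finrank (ZMod 2) E - d + finrank (ZMod 2) T) :=
    not_le.1 hcon
  set τ := finrank (ZMod 2) T with hτd
  set n := finrank (ZMod 2) E with hnd
  have key : ∀ i, τ + i ≤ d → ∃ V : Submodule (ZMod 2) E, T ≤ V ∧ finrank (ZMod 2) V = τ + i ∧
      (∀ v ∈ V, v ∉ A) ∧ (count_add A V).ncard ≤ 2 ^ i * (count_add A T).ncard := by
    intro i
    induction i with
    | zero =>
      intro _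
      exact ⟨T, le_refl _, by simp [hτd], hT, by simp⟩
    | succ i ih =>
      intro hi
      obtain ⟨V, hTV, hfV, hVA, hcV⟩ := ih (by omega)
      have hc : (count_add A V).ncard + 2 ^ finrank (ZMod 2) V < 2 ^ finrank (ZMod 2) E := by
        rw [hfV, ← hnd]
        have h1 : 2 ^ i * (count_add A T).ncard + 2 ^ i ≤ 2 ^ i * 2 ^ (n - d + τ) := by
          calc 2 ^ i * (count_add A T).ncard + 2 ^ i = 2 ^ i * ((count_add A T).ncard + 1) := by ring
            _ ≤ 2 ^ i * 2 ^ (n - d + τ) := Nat.mul_le_mul_left _ hlt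
        have h2 : 2 ^ i * 2 ^ (n - d + τ) ≤ 2 ^ (n - 1) := by
          rw [← pow_add]
          exact Nat.pow_le_pow_right (by norm_num) (by omega)
        have h3 : 2 ^ (τ + i) ≤ 2 ^ (n - 1) := Nat.pow_le_pow_right (by norm_num) (by omega)
        have h4 : 2 ^ n = 2 ^ (n - 1) + 2 ^ (n - 1) := by
          rw [← two_mul, ← pow_succ']
          congr 1
          omega
        have h5 : 0 < 2 ^ i := by positivity
        omega
      obtain ⟨V', hVV', hfV', hVA', hcV'⟩ := count_step A V hVA hc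
      refine ⟨V', hTV.trans hVV', by omega, hVA', ?_⟩
      calc (count_add A V').ncard ≤ 2 * (count_add A V).ncard := hcV'
        _ ≤ 2 * (2 ^ i * (count_add A T).ncard) := Nat.mul_le_mul_left _ hcV
        _ = 2 ^ (i + 1) * (count_add A T).ncard := by ring
  obtain ⟨V, hTV, hfV, hVA, _⟩ := key (d - τ) (by omega)
  obtain ⟨v, hv, hvA⟩ := hA V (by omega) hTV
  exact hVA v hv hvA

/-- Special case `T = 0`: a set which meets all `d`-dimensional subspaces is large. -/
theorem two_pow_le_ncard {E : Type*} [AddCommGroup E] [Module (ZMod 2) E] [Finite E] (A : Set E)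
    (d : ℕ) (h0 : (0 : E) ∉ A) (hd : d ≤ finrank (ZMod 2) E) (hA : Hits A d) :
    2 ^ (finrank (ZMod 2) E - d) ≤ A.ncard := by
  have h := coset_count A d ⊥ (fun v hv hvA => h0 (by rwa [(Submodule.mem_bot _).1 hv] at hvA))
    (by rw [finrank_bot]; exact Nat.zero_le _) hd (fun V hV _ => hA V hV)
  rw [finrank_bot, add_zero] at h
  have e : {x : E | ∃ a ∈ A, ∃ t ∈ (⊥ : Submodule (ZMod 2) E), x = a + t} = A := by
    ext x
    constructor
    · rintro ⟨a, ha, t, ht, rfl⟩
      rw [(Submodule.mem_bot _).1 ht, add_zero]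
      exact ha
    · intro hx
      exact ⟨x, hx, 0, Submodule.zero_mem _, (add_zero x).symm⟩
  rwa [e] at h

theorem card_subspaces_le (E : Type*) [AddCommGroup E] [Module (ZMod 2) E] [Finite E] (d : ℕ) :
    Nat.card {V : Submodule (ZMod 2) E // finrank (ZMod 2) V = d} ≤
      2 ^ (d * finrank (ZMod 2) E) := by
  classical
  let F : {V : Submodule (ZMod 2) E // finrank (ZMod 2) V = d} → (Fin d → E) := fun V i =>
    ((Module.finBasisOfFinrankEq (ZMod 2) V.1 V.2) i : E)
  have hF : Function.Injective F := by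
    have hspan : ∀ V, Submodule.span (ZMod 2) (Set.range (F V)) = V.1 := by
      intro V
      have h1 := (Module.finBasisOfFinrankEq (ZMod 2) V.1 V.2).span_eq
      have h2 : Set.range (F V) = (V.1.subtype) '' (Set.range
          (Module.finBasisOfFinrankEq (ZMod 2) V.1 V.2)) := by
        rw [← Set.range_comp]
        rfl
      rw [h2, Submodule.span_image, h1, Submodule.map_top, Submodule.range_subtype]
    intro V W h
    apply Subtype.ext
    rw [← hspan V, ← hspan W, h]
  have h1 := Nat.card_le_card_of_injective F hF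
  rw [Nat.card_fun, count_card (E := E), ← pow_mul, Nat.card_fin,
    mul_comm (finrank (ZMod 2) E) d] at h1
  exact h1

end Pool.Agent.RF
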