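import Mathlib
import Pool.Agent.Helper74.RF.Basic
import Pool.Agent.Helper74.RF.Count
import Pool.Agent.Helper74.RF.Choice

/-!
# RF-4: composition (near superadditivity of `R_{𝔽₂}(2, d)`)

Proof. Work in `E = E₁ × E₂`, `E₁ = 𝔽₂^{n₁}`, `E₂ = 𝔽₂^{n₂}`, `A₁ ⊆ E₁`, `A₂ ⊆ E₂` the given sets
(`Fin 1`-families). `d₁, d₂ ≥ 1` by `not_av_zero`.

If `n₁ < d₁` then the preimage of `A₂` under the projection `E → E₂` works: a `d`-dimensional `V`
has image of dimension at least `d - n₁ ≥ d₂` (this is also `av_lift` and `av_mono_d`).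

Let `d₁ ≤ n₁`. For a function `a : A₂ → E₁` (or `a : E₂ → E₁`) put
`A = {(x₁, 0) | x₁ ∈ A₁} ∪ {(x₁, x₂) | x₂ ∈ A₂, x₁ + a x₂ ∈ A₁}`. `A` is sum-free for every `a`:
let `(x₁,x₂), (y₁,y₂)` and the sum be in `A`. If `x₂, y₂ ∈ A₂` then `x₂ + y₂ ∉ A₂`, so `x₂ = y₂` and
`x₁ + y₁ ∈ A₁`, `x₁ + a x₂ ∈ A₁`, `y₁ + a x₂ ∈ A₁`, the sum of the last two is `x₁ + y₁`,
contradiction. If `x₂ = 0`, `y₂ ∈ A₂`: `x₁ ∈ A₁`, `y₁ + a y₂ ∈ A₁` and the sum
`x₁ + y₁ + a y₂ ∈ A₁`, contradiction. If `x₂ = y₂ = 0` clear. (`0 ∉ A₂`.)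

Let `V` have dimension `d`, `T = {x₁ | (x₁, 0) ∈ V}` of dimension `τ`, `P` the projection of `V` to
`E₂`, of dimension `d - τ`. If `T` meets `A₁` we are done (for example if `τ ≥ d₁`). Otherwise
`τ < d₁` and `d - τ ≥ d₂`; `two_pow_le_ncard` in the space `P` (the set `A₂ ∩ P` meets all
`d₂`-dimensional subspaces of `P`) gives `|A₂ ∩ P| ≥ 2^(d-τ-d₂) = 2^(d₁-τ) * 2^(d-d₁-d₂)`.
For `x₂ ∈ A₂ ∩ P` fix `v₁` with `(v₁, x₂) ∈ V`; then `(v₁ + t, x₂) ∈ V` for all `t ∈ T`.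
`V` meets `A` in such a point if `v₁ + t + a x₂ ∈ A₁` for some `t ∈ T`, that is, if
`a x₂ ∈ v₁ + (A₁ + T)`; by `coset_count` there are at least `2^(n₁ - d₁ + τ)` such values `a x₂`
among all `2^{n₁}`. So `random_choice` applies with `ι` = the `d`-dimensional subspaces of `E` with
`T` unhit (at most `2^(d (n₁+n₂))` by `card_subspaces_le`), `m = d (n₁ + n₂)`, `X = E₂`,
`Ω x₂ = E₁`, `S V = A₂ ∩ P`, `G V x₂ = v₁ + (A₁ + T)`, `k V = d₁ - τ`.
Finally transfer from `E₁ × E₂` to `Fin (n₁ + n₂) → ZMod 2` by `avOn_iff`.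
-/

set_option autoImplicit false

namespace Pool.Agent.RF

open Module

/-- Every subspace of dimension at least `d` contains one of dimension `d`. -/
theorem comp_exists_sub {E : Type*} [AddCommGroup E] [Module (ZMod 2) E]
    [Module.Finite (ZMod 2) E] (T : Submodule (ZMod 2) E) {d : ℕ}
    (h : d ≤ finrank (ZMod 2) T) :
    ∃ U : Submodule (ZMod 2) E, U ≤ T ∧ finrank (ZMod 2) U = d := by
  let b := finBasis (ZMod 2) T
  let g : Fin d → E := fun i => (b (Fin.castLE h i) : E)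
  have hg : LinearIndependent (ZMod 2) g := by
    have h1 : LinearIndependent (ZMod 2) (fun i => T.subtype (b i)) :=
      b.linearIndependent.map' T.subtype (Submodule.ker_subtype T)
    exact h1.comp (Fin.castLE h) (Fin.castLE_injective h)
  refine ⟨Submodule.span (ZMod 2) (Set.range g), ?_, ?_⟩
  · rw [Submodule.span_le]
    rintro _ ⟨i, rfl⟩
    exact (b (Fin.castLE h i)).2
  · rw [finrank_span_eq_card hg, Fintype.card_fin]

/-- Rank-nullity for the projection of a subspace of a product to the second factor. -/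
theorem comp_finrank {E F : Type*} [AddCommGroup E] [Module (ZMod 2) E]
    [Module.Finite (ZMod 2) E] [AddCommGroup F] [Module (ZMod 2) F] [Module.Finite (ZMod 2) F]
    (V : Submodule (ZMod 2) (E × F)) :
    finrank (ZMod 2) (V.map (LinearMap.snd (ZMod 2) E F)) +
      finrank (ZMod 2) (V.comap (LinearMap.inl (ZMod 2) E F)) = finrank (ZMod 2) V := by
  have h1 := ((LinearMap.snd (ZMod 2) E F).domRestrict V).finrank_range_add_finrank_ker
  rw [LinearMap.range_domRestrict] at h1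
  have h2 : (LinearMap.ker ((LinearMap.snd (ZMod 2) E F).domRestrict V)).map V.subtype =
      (V.comap (LinearMap.inl (ZMod 2) E F)).map (LinearMap.inl (ZMod 2) E F) := by
    ext ⟨x, y⟩
    simp only [Submodule.mem_map, LinearMap.mem_ker, LinearMap.domRestrict_apply,
      Submodule.subtype_apply, Subtype.exists, LinearMap.snd_apply, Submodule.mem_comap,
      LinearMap.inl_apply, Prod.mk.injEq]
    constructor
    · rintro ⟨⟨a, b⟩, hab, hb, h⟩
      simp only [Prod.mk.injEq] at h hb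
      obtain ⟨rfl, rfl⟩ := h
      subst hb
      exact ⟨a, hab, rfl, rfl⟩
    · rintro ⟨a, ha, rfl, rfl⟩
      exact ⟨(a, 0), ha, rfl, rfl⟩
  have h3 : finrank (ZMod 2) (LinearMap.ker ((LinearMap.snd (ZMod 2) E F).domRestrict V)) =
      finrank (ZMod 2) (V.comap (LinearMap.inl (ZMod 2) E F)) := by
    rw [(Submodule.equivMapOfInjective V.subtype V.injective_subtype _).finrank_eq, h2]
    exact ((Submodule.equivMapOfInjective (LinearMap.inl (ZMod 2) E F)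
      LinearMap.inl_injective _).finrank_eq).symm
  omega

theorem comp_add_self {n : ℕ} (x : Fin n → ZMod 2) : x + x = 0 := by
  ext i
  simpa using CharTwo.add_self_eq_zero (x i)

/-- The composed set. -/
def compSet {n₁ n₂ : ℕ} (A₁ : Set (Fin n₁ → ZMod 2)) (A₂ : Set (Fin n₂ → ZMod 2))
    (a : (Fin n₂ → ZMod 2) → (Fin n₁ → ZMod 2)) : Set ((Fin n₁ → ZMod 2) × (Fin n₂ → ZMod 2)) :=
  {x | (x.2 = 0 ∧ x.1 ∈ A₁) ∨ (x.2 ∈ A₂ ∧ x.1 + a x.2 ∈ A₁)}

theorem compSet_sumFree {n₁ n₂ : ℕ} {A₁ : Set (Fin n₁ → ZMod 2)} {A₂ : Set (Fin n₂ → ZMod 2)}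
    (h₁ : SumFree A₁) (h₂ : SumFree A₂) (a : (Fin n₂ → ZMod 2) → (Fin n₁ → ZMod 2)) :
    SumFree (compSet A₁ A₂ a) := by
  rintro ⟨x₁, x₂⟩ hx ⟨y₁, y₂⟩ hy hxy
  simp only [compSet, Set.mem_ofPred_eq, Prod.mk_add_mk] at hx hy hxy
  have h0 := h₂.zero_notMem
  rcases hx with ⟨rfl, hx⟩ | ⟨hx, hx'⟩
  · rcases hy with ⟨rfl, hy⟩ | ⟨hy, hy'⟩
    · rcases hxy with ⟨-, h⟩ | ⟨h, -⟩
      · exact h₁ _ hx _ hy h
      · rw [add_zero] at h
        exact h0 h
    · rw [zero_add] at hxy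
      rcases hxy with ⟨rfl, h⟩ | ⟨h, h'⟩
      · exact h0 hy
      · refine h₁ _ hx _ hy' ?_
        rw [← add_assoc]
        exact h'
  · rcases hy with ⟨rfl, hy⟩ | ⟨hy, hy'⟩
    · rw [add_zero] at hxy
      rcases hxy with ⟨rfl, h⟩ | ⟨h, h'⟩
      · exact h0 hx
      · refine h₁ _ hx' _ hy ?_
        have : x₁ + a x₂ + y₁ = x₁ + y₁ + a x₂ := by abel
        rw [this]
        exact h'
    · rcases hxy with ⟨h, h'⟩ | ⟨h, h'⟩
      · have hxy2 : x₂ = y₂ := by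
          have : x₂ + y₂ + y₂ = 0 + y₂ := by rw [h]
          rw [add_assoc, comp_add_self, add_zero, zero_add] at this
          exact this
        subst hxy2
        refine h₁ _ hx' _ hy' ?_
        have : x₁ + a x₂ + (y₁ + a x₂) = x₁ + y₁ + (a x₂ + a x₂) := by abel
        rw [this, comp_add_self, add_zero]
        exact h'
      · exact h₂ _ hx _ hy h

theorem av_comp {d₁ n₁ d₂ n₂ d : ℕ} (h₁ : Av 1 d₁ n₁) (h₂ : Av 1 d₂ n₂) (hd : d₁ + d₂ ≤ d)
    (hn : d * (n₁ + n₂) ≤ 2 ^ (d - d₁ - d₂)) : Av 1 d (n₁ + n₂) := by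
  have hd₁ : 1 ≤ d₁ := by
    rcases Nat.eq_zero_or_pos d₁ with rfl | h
    · exact absurd h₁ not_av_zero
    · exact h
  have hd₂ : 1 ≤ d₂ := by
    rcases Nat.eq_zero_or_pos d₂ with rfl | h
    · exact absurd h₂ not_av_zero
    · exact h
  rcases Nat.lt_or_ge n₁ d₁ with hlt | hge
  · have := av_lift (k := n₁) h₂
    rw [add_comm n₁ n₂]
    exact av_mono_d this (by omega)
  obtain ⟨A₁', hA₁', hh₁⟩ := h₁
  obtain ⟨A₂', hA₂', hh₂⟩ := h₂
  set A₁ := A₁' 0 with hA₁def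
  set A₂ := A₂' 0 with hA₂def
  have hs₁ : SumFree A₁ := hA₁' 0
  have hs₂ : SumFree A₂ := hA₂' 0
  have hit₁ : ∀ V : Submodule (ZMod 2) (Fin n₁ → ZMod 2), d₁ ≤ finrank (ZMod 2) V →
      ∃ v ∈ V, v ∈ A₁ := by
    intro V hV
    obtain ⟨U, hUV, hU⟩ := comp_exists_sub V hV
    obtain ⟨i, v, hv, hvA⟩ := hh₁ U hU
    exact ⟨v, hUV hv, by rw [Subsingleton.elim i 0] at hvA; exact hvA⟩
  have hit₂ : ∀ V : Submodule (ZMod 2) (Fin n₂ → ZMod 2), d₂ ≤ finrank (ZMod 2) V →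
      ∃ v ∈ V, v ∈ A₂ := by
    intro V hV
    obtain ⟨U, hUV, hU⟩ := comp_exists_sub V hV
    obtain ⟨i, v, hv, hvA⟩ := hh₂ U hU
    exact ⟨v, hUV hv, by rw [Subsingleton.elim i 0] at hvA; exact hvA⟩
  clear_value A₁ A₂
  clear hh₁ hh₂ hA₁' hA₂' hA₁def hA₂def A₁' A₂'
  -- the index type of the union bound
  let fib : Submodule (ZMod 2) ((Fin n₁ → ZMod 2) × (Fin n₂ → ZMod 2)) →
      Submodule (ZMod 2) (Fin n₁ → ZMod 2) :=
    fun V => V.comap (LinearMap.inl (ZMod 2) (Fin n₁ → ZMod 2) (Fin n₂ → ZMod 2))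
  let pr : Submodule (ZMod 2) ((Fin n₁ → ZMod 2) × (Fin n₂ → ZMod 2)) →
      Submodule (ZMod 2) (Fin n₂ → ZMod 2) :=
    fun V => V.map (LinearMap.snd (ZMod 2) (Fin n₁ → ZMod 2) (Fin n₂ → ZMod 2))
  let ι := {V : Submodule (ZMod 2) ((Fin n₁ → ZMod 2) × (Fin n₂ → ZMod 2)) //
    finrank (ZMod 2) V = d ∧ ∀ t ∈ fib V, t ∉ A₁}
  have hrank : ∀ V : ι, finrank (ZMod 2) (pr V.1) + finrank (ZMod 2) (fib V.1) = d :=
    fun V => (comp_finrank V.1).trans V.2.1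
  have hτ : ∀ V : ι, finrank (ZMod 2) (fib V.1) < d₁ := by
    intro V
    by_contra h
    obtain ⟨v, hv, hvA⟩ := hit₁ (fib V.1) (by omega)
    exact V.2.2 v hv hvA
  classical
  have hex : ∀ (V : ι) (x : Fin n₂ → ZMod 2), ∃ v₁ : Fin n₁ → ZMod 2,
      x ∈ pr V.1 → (v₁, x) ∈ V.1 := by
    intro V x
    by_cases hx : x ∈ pr V.1
    · obtain ⟨⟨p, q⟩, hpq, hq⟩ := hx
      simp only [LinearMap.snd_apply] at hq
      subst hq
      exact ⟨p, fun _ => hpq⟩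
    · exact ⟨0, fun h => absurd h hx⟩
  choose v₁ hv₁ using hex
  let S : ι → Finset (Fin n₂ → ZMod 2) :=
    fun V => (Set.toFinite {x | x ∈ A₂ ∧ x ∈ pr V.1}).toFinset
  have hSmem : ∀ (V : ι) (x : Fin n₂ → ZMod 2), x ∈ S V ↔ x ∈ A₂ ∧ x ∈ pr V.1 := by
    intro V x
    simp [S]
  have hScard : ∀ V : ι, 2 ^ (d₁ - finrank (ZMod 2) (fib V.1)) * (d * (n₁ + n₂)) ≤ (S V).card := by
    intro V
    have h1 := hrank V
    have h2 := hτ V
    have key := two_pow_le_ncard (E := pr V.1) {x : pr V.1 | (x : Fin n₂ → ZMod 2) ∈ A₂} d₂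
      (by simpa using hs₂.zero_notMem) (by omega) (by
        intro W hW
        obtain ⟨v, hv, hvA⟩ := hit₂ (W.map (pr V.1).subtype) (by
          rw [Submodule.finrank_map_subtype_eq, hW])
        obtain ⟨w, hw, rfl⟩ := hv
        exact ⟨w, hw, hvA⟩)
    have h3 : Set.ncard {x : pr V.1 | (x : Fin n₂ → ZMod 2) ∈ A₂} = (S V).card := by
      rw [← Set.ncard_image_of_injective _ Subtype.val_injective, ← Set.ncard_coe_finset]
      congr 1
      ext x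
      simp only [Set.mem_image, Set.mem_ofPred_eq, Subtype.exists, exists_and_right,
        exists_eq_right, Finset.mem_coe, hSmem]
      constructor
      · rintro ⟨a, b⟩
        exact ⟨b, a⟩
      · rintro ⟨a, b⟩
        exact ⟨b, a⟩
    rw [h3] at key
    refine le_trans ?_ key
    calc 2 ^ (d₁ - finrank (ZMod 2) (fib V.1)) * (d * (n₁ + n₂))
        ≤ 2 ^ (d₁ - finrank (ZMod 2) (fib V.1)) * 2 ^ (d - d₁ - d₂) :=
          Nat.mul_le_mul_left _ hn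
      _ = 2 ^ (finrank (ZMod 2) (pr V.1) - d₂) := by
          rw [← pow_add]
          congr 1
          omega
  let G : ∀ (_ : ι) (_ : Fin n₂ → ZMod 2), Set (Fin n₁ → ZMod 2) :=
    fun V x => {y | ∃ b ∈ A₁, ∃ t ∈ fib V.1, y = v₁ V x + (b + t)}
  have hGcard : ∀ (V : ι), ∀ x ∈ S V, Nat.card (Fin n₁ → ZMod 2) ≤
      2 ^ (d₁ - finrank (ZMod 2) (fib V.1)) * (G V x).ncard := by
    intro V x _
    have h2 := hτ V
    have hn₁ : finrank (ZMod 2) (Fin n₁ → ZMod 2) = n₁ := by simp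
    have key := coset_count A₁ d₁ (fib V.1) V.2.2 h2.le (by rw [hn₁]; exact hge)
      (fun W hW _ => hit₁ W hW.ge)
    rw [hn₁] at key
    have h3 : (G V x).ncard =
        Set.ncard {x : Fin n₁ → ZMod 2 | ∃ a ∈ A₁, ∃ t ∈ fib V.1, x = a + t} := by
      rw [← Set.ncard_image_of_injective {x : Fin n₁ → ZMod 2 | ∃ a ∈ A₁, ∃ t ∈ fib V.1, x = a + t}
        (add_right_injective (v₁ V x))]
      congr 1
      ext y
      simp only [G, Set.mem_ofPred_eq, Set.mem_image]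
      constructor
      · intro hy
        obtain ⟨b, hb, t, ht, h⟩ : ∃ b ∈ A₁, ∃ t ∈ fib V.1, y = v₁ V x + (b + t) := hy
        exact ⟨b + t, ⟨b, hb, t, ht, rfl⟩, h.symm⟩
      · rintro ⟨z, hz, rfl⟩
        obtain ⟨b, hb, t, ht, h⟩ : ∃ b ∈ A₁, ∃ t ∈ fib V.1, z = b + t := hz
        exact ⟨b, hb, t, ht, by rw [h]⟩
    rw [h3]
    have h4 : Nat.card (Fin n₁ → ZMod 2) = 2 ^ n₁ := by
      simp
    rw [h4]
    calc 2 ^ n₁ = 2 ^ (d₁ - finrank (ZMod 2) (fib V.1)) *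
          2 ^ (n₁ - d₁ + finrank (ZMod 2) (fib V.1)) := by
          rw [← pow_add]
          congr 1
          omega
      _ ≤ _ := Nat.mul_le_mul_left _ key
  have hιcard : Nat.card ι ≤ 2 ^ (d * (n₁ + n₂)) := by
    have h1 := card_subspaces_le ((Fin n₁ → ZMod 2) × (Fin n₂ → ZMod 2)) d
    have h2 : finrank (ZMod 2) ((Fin n₁ → ZMod 2) × (Fin n₂ → ZMod 2)) = n₁ + n₂ := by
      simp
    rw [h2] at h1
    refine le_trans ?_ h1
    exact Nat.card_le_card_of_injective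
      (fun V : ι => (⟨V.1, V.2.1⟩ : {V : Submodule (ZMod 2)
        ((Fin n₁ → ZMod 2) × (Fin n₂ → ZMod 2)) // finrank (ZMod 2) V = d}))
      (fun V W h => Subtype.ext (by simpa using h))
  have hm : 1 ≤ d * (n₁ + n₂) := Nat.mul_pos (by omega) (by omega)
  obtain ⟨a, ha⟩ := random_choice (ι := ι) (X := Fin n₂ → ZMod 2)
    (Ω := fun _ => Fin n₁ → ZMod 2) (d * (n₁ + n₂)) hm hιcard S G
    (fun V => d₁ - finrank (ZMod 2) (fib V.1)) hScard hGcard
  have hmain : AvOn 1 d ((Fin n₁ → ZMod 2) × (Fin n₂ → ZMod 2)) := by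
    refine ⟨fun _ => compSet A₁ A₂ a, fun _ => compSet_sumFree hs₁ hs₂ a, fun V hV => ⟨0, ?_⟩⟩
    by_cases hT : ∀ t ∈ fib V, t ∉ A₁
    · obtain ⟨x, hx, b, hb, t, ht, hab⟩ := ha ⟨V, hV, hT⟩
      rw [hSmem] at hx
      have hv := hv₁ ⟨V, hV, hT⟩ x hx.2
      refine ⟨(v₁ ⟨V, hV, hT⟩ x + t, x), ?_, Or.inr ⟨hx.1, ?_⟩⟩
      · have ht' : (t, (0 : Fin n₂ → ZMod 2)) ∈ V := ht
        have := V.add_mem hv ht'
        simpa using this
      · change v₁ ⟨V, hV, hT⟩ x + t + a x ∈ A₁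
        rw [hab]
        have : v₁ ⟨V, hV, hT⟩ x + t + (v₁ ⟨V, hV, hT⟩ x + (b + t)) =
            (v₁ ⟨V, hV, hT⟩ x + v₁ ⟨V, hV, hT⟩ x) + (t + t) + b := by abel
        rw [this, comp_add_self, comp_add_self, zero_add, zero_add]
        exact hb
    · push Not at hT
      obtain ⟨t, ht, htA⟩ := hT
      exact ⟨(t, 0), ht, Or.inl ⟨rfl, htA⟩⟩
  have := avOn_iff.mp hmain
  simpa using this

end Pool.Agent.RF
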