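import Mathlib
import Pool.Agent.Helper74.RF.Defs
import Pool.Agent.Helper74.RF.Count

/-!
# RF-5: heavy vectors and random linear maps

Proofs. `H = heavy μ` is the set of the vectors of weight `> 2μ` in `𝔽₂^{3μ}`.
* sum-free: at every coordinate at most two of `x, y, x + y` are nonzero, so the three weights add
  up to at most `6μ`.
* `heavy_hits`: a subspace `Q` of dimension `r > 2μ` has an information set: a set `I` of `r`
  coordinates such that the restriction `Q → 𝔽₂^I` is bijective (the row rank of a matrix is its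
  column rank; or: take a maximal set `I` of coordinates whose coordinate functionals restricted to
  `Q` are linearly independent in the dual of `Q`; the coordinate functionals span the dual of `Q`,
  so `|I| = r` and restriction to `I` is injective on `Q`, hence bijective). So there is `v ∈ Q` with
  `v i = 1` for all `i ∈ I`, of weight at least `r > 2μ`.
* `card_bad_maps`: if `p(U)` contains no heavy vector then `dim p(U) ≤ 2μ`, so `p(U) ≤ Q` for some
  `Q` of dimension exactly `2μ`. There are at most `2^(2μ·3μ) = 2^(6μ²)` such `Q`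
  (`card_subspaces_le`). For fixed `Q`, choose a complement of `U` of dimension `k - 12μ`; the
  linear maps `p` with `p(U) ≤ Q` correspond to pairs (linear map `U → Q`, linear map
  complement `→ 𝔽₂^{3μ}`), so there are `2^(2μ·12μ) * 2^(3μ(k-12μ)) = 2^(3μk-12μ²)` of them.
-/

set_option autoImplicit false

namespace Pool.Agent.RF

open Module

/-- The vectors of weight greater than `2μ` in `𝔽₂^{3μ}`. -/
def heavy (μ : ℕ) : Set (Fin (3 * μ) → ZMod 2) :=
  {x | 2 * μ < (Finset.univ.filter (fun i => x i ≠ 0)).card}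

theorem heavy_sumFree (μ : ℕ) : SumFree (heavy μ) := by
  intro x hx y hy hxy
  simp only [heavy, Set.mem_ofPred_eq, Finset.card_filter] at hx hy hxy
  have h1 : ∀ a b : ZMod 2, ((if a ≠ 0 then 1 else 0) + (if b ≠ 0 then 1 else 0) +
      (if a + b ≠ 0 then 1 else 0) : ℕ) ≤ 2 := by decide
  have h2 : (∑ i : Fin (3 * μ), (if x i ≠ 0 then 1 else 0)) +
      (∑ i : Fin (3 * μ), (if y i ≠ 0 then 1 else 0)) +
      (∑ i : Fin (3 * μ), (if (x + y) i ≠ 0 then 1 else 0)) ≤ 3 * μ * 2 := by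
    rw [← Finset.sum_add_distrib, ← Finset.sum_add_distrib]
    have h3 := Finset.sum_le_card_nsmul (Finset.univ : Finset (Fin (3 * μ)))
      (fun i => ((if x i ≠ 0 then 1 else 0) + (if y i ≠ 0 then 1 else 0) +
        (if (x + y) i ≠ 0 then 1 else 0) : ℕ)) 2 (fun i _ => h1 (x i) (y i))
    simpa using h3
  omega

theorem heavy_hits (μ : ℕ) (Q : Submodule (ZMod 2) (Fin (3 * μ) → ZMod 2))
    (hQ : 2 * μ < finrank (ZMod 2) Q) : ∃ v ∈ Q, v ∈ heavy μ := by
  classical
  -- the coordinate functionals on `Q`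
  let φ : Fin (3 * μ) → Module.Dual (ZMod 2) Q := fun i => (LinearMap.proj i).comp Q.subtype
  obtain ⟨κ, a, ha, hspan, hli⟩ := exists_linearIndependent' (ZMod 2) φ
  have htop : Submodule.span (ZMod 2) (Set.range (φ ∘ a)) = ⊤ := by
    rw [hspan]
    by_contra hne
    have hlt : Submodule.span (ZMod 2) (Set.range φ) < ⊤ := lt_top_iff_ne_top.2 hne
    obtain ⟨ψ, hψ0, hψ⟩ := Submodule.exists_le_ker_of_lt_top _ hlt
    let v : Q := (Module.evalEquiv (ZMod 2) Q).symm ψ
    have hv : ∀ f : Module.Dual (ZMod 2) Q, f v = ψ f := by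
      intro f
      exact Module.apply_evalEquiv_symm_apply (R := ZMod 2) (M := Q) f ψ
    have hv0 : v = 0 := by
      apply Subtype.ext
      funext i
      have h1 := hv (φ i)
      have h2 : ψ (φ i) = 0 := hψ (Submodule.subset_span ⟨i, rfl⟩)
      rw [h2] at h1
      exact h1
    apply hψ0
    ext f
    rw [← hv f, hv0, map_zero]
    rfl
  let b : Module.Basis κ (ZMod 2) (Module.Dual (ZMod 2) Q) := Module.Basis.mk hli htop.ge
  have hfin : Finite κ := Finite.of_injective a ha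
  have : Fintype κ := Fintype.ofFinite κ
  have hcard : Fintype.card κ = finrank (ZMod 2) Q := by
    rw [← Module.finrank_eq_card_basis b, Subspace.dual_finrank_eq]
  let ψ : Module.Dual (ZMod 2) (Module.Dual (ZMod 2) Q) := b.constr (ZMod 2) (fun _ => (1 : ZMod 2))
  let v : Q := (Module.evalEquiv (ZMod 2) Q).symm ψ
  have hv : ∀ k, (v : Fin (3 * μ) → ZMod 2) (a k) = 1 := by
    intro k
    have h1 : φ (a k) v = ψ (φ (a k)) :=
      Module.apply_evalEquiv_symm_apply (R := ZMod 2) (M := Q) (φ (a k)) ψ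
    have h2 : φ (a k) = b k := by simp [b]
    rw [h2] at h1
    have h3 : ψ (b k) = 1 := by simp [ψ]
    rw [h3, ← h2] at h1
    exact h1
  refine ⟨v, v.2, ?_⟩
  have h4 : (Finset.univ.image a).card ≤
      (Finset.univ.filter fun i => (v : Fin (3 * μ) → ZMod 2) i ≠ 0).card := by
    apply Finset.card_le_card
    intro i hi
    obtain ⟨k, -, rfl⟩ := Finset.mem_image.1 hi
    rw [Finset.mem_filter, hv k]
    exact ⟨Finset.mem_univ _, one_ne_zero⟩
  rw [Finset.card_image_of_injective _ ha, Finset.card_univ, hcard] at h4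
  exact lt_of_lt_of_le hQ h4

/-- A subspace is contained in a subspace of any larger dimension. -/
private theorem exists_dim_between {W : Type*} [AddCommGroup W] [Module (ZMod 2) W] [Finite W]
    (V : Submodule (ZMod 2) W) {d : ℕ} (h1 : finrank (ZMod 2) V ≤ d)
    (h2 : d ≤ finrank (ZMod 2) W) :
    ∃ Q : Submodule (ZMod 2) W, V ≤ Q ∧ finrank (ZMod 2) Q = d := by
  have : Module.Finite (ZMod 2) W := Module.Finite.of_finite
  induction d with
  | zero =>
    refine ⟨V, le_rfl, by omega⟩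
  | succ d ih =>
    rcases Nat.lt_or_ge d (finrank (ZMod 2) V) with h | h
    · exact ⟨V, le_rfl, by omega⟩
    · obtain ⟨Q, hQ1, hQ2⟩ := ih h (by omega)
      have hne : Q ≠ ⊤ := by
        rintro rfl
        rw [finrank_top] at hQ2
        omega
      obtain ⟨x, hx⟩ : ∃ x, x ∉ Q := by
        by_contra hcon
        push Not at hcon
        exact hne (eq_top_iff.2 fun x _ => hcon x)
      refine ⟨Q ⊔ Submodule.span (ZMod 2) {x}, hQ1.trans le_sup_left, ?_⟩
      have hx0 : x ≠ 0 := fun h0 => hx (h0 ▸ Q.zero_mem)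
      have h3 := Submodule.finrank_sup_add_finrank_inf_eq Q (Submodule.span (ZMod 2) {x})
      have h4 : Q ⊓ Submodule.span (ZMod 2) {x} = ⊥ := by
        rw [eq_bot_iff]
        rintro y ⟨hy1, hy2⟩
        obtain ⟨c, rfl⟩ := Submodule.mem_span_singleton.1 hy2
        by_cases hc : c = 0
        · simp [hc]
        · exfalso
          apply hx
          have := Q.smul_mem c⁻¹ hy1
          rwa [smul_smul, inv_mul_cancel₀ hc, one_smul] at this
      rw [h4, finrank_bot, finrank_span_singleton hx0, hQ2] at h3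
      omega

/-- The number of linear maps which send `U` into `Q`. -/
private theorem card_maps_into {E W : Type*} [AddCommGroup E] [Module (ZMod 2) E] [Finite E]
    [AddCommGroup W] [Module (ZMod 2) W] [Finite W] (U : Submodule (ZMod 2) E)
    (Q : Submodule (ZMod 2) W) :
    Nat.card {p : E →ₗ[ZMod 2] W // ∀ v ∈ U, p v ∈ Q} *
      2 ^ (finrank (ZMod 2) U * (finrank (ZMod 2) W - finrank (ZMod 2) Q)) =
      2 ^ (finrank (ZMod 2) E * finrank (ZMod 2) W) := by
  classical
  have : Module.Finite (ZMod 2) E := Module.Finite.of_finite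
  have : Module.Finite (ZMod 2) W := Module.Finite.of_finite
  let R : (E →ₗ[ZMod 2] W) →ₗ[ZMod 2] (U →ₗ[ZMod 2] (W ⧸ Q)) :=
    { toFun := fun p => (Q.mkQ.comp p).comp U.subtype
      map_add' := fun p q => by ext; simp
      map_smul' := fun c p => by ext; simp }
  have hR : Function.Surjective R := by
    intro g
    obtain ⟨g', hg'⟩ := LinearMap.exists_extend g
    obtain ⟨s, hs⟩ := LinearMap.exists_rightInverse_of_surjective Q.mkQ (Submodule.range_mkQ Q)
    refine ⟨s.comp g', ?_⟩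
    have h1 : Q.mkQ.comp (s.comp g') = g' := by
      rw [← LinearMap.comp_assoc, hs, LinearMap.id_comp]
    change (Q.mkQ.comp (s.comp g')).comp U.subtype = g
    rw [h1, hg']
  have hker : ∀ p : E →ₗ[ZMod 2] W, p ∈ LinearMap.ker R ↔ ∀ v ∈ U, p v ∈ Q := by
    intro p
    rw [LinearMap.mem_ker]
    constructor
    · intro h v hv
      have h1 := LinearMap.congr_fun h ⟨v, hv⟩
      exact (Submodule.Quotient.mk_eq_zero Q).1 h1
    · intro h
      ext v
      exact (Submodule.Quotient.mk_eq_zero Q).2 (h v v.2)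
  have hc : Nat.card {p : E →ₗ[ZMod 2] W // ∀ v ∈ U, p v ∈ Q} =
      Nat.card (LinearMap.ker R) :=
    Nat.card_congr (Equiv.subtypeEquivRight fun p => (hker p).symm)
  have hfE : Module.Free (ZMod 2) E := inferInstance
  rw [hc, Module.natCard_eq_pow_finrank (K := ZMod 2) (V := LinearMap.ker R), Nat.card_zmod,
    ← pow_add]
  congr 1
  have h2 := LinearMap.finrank_range_add_finrank_ker R
  rw [LinearMap.range_eq_top.2 hR, finrank_top, Module.finrank_linearMap,
    Module.finrank_linearMap, Submodule.finrank_quotient] at h2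
  omega

theorem card_bad_maps (μ k : ℕ) (U : Submodule (ZMod 2) (Fin k → ZMod 2))
    (hU : finrank (ZMod 2) U = 12 * μ) :
    Nat.card {p : (Fin k → ZMod 2) →ₗ[ZMod 2] (Fin (3 * μ) → ZMod 2) //
      ∀ v ∈ U, p v ∉ heavy μ} * 2 ^ (6 * μ ^ 2) ≤ 2 ^ (3 * μ * k) := by
  classical
  have hW : finrank (ZMod 2) (Fin (3 * μ) → ZMod 2) = 3 * μ := by simp
  have hE : finrank (ZMod 2) (Fin k → ZMod 2) = k := by simp
  -- for every bad map choose a subspace of dimension `2μ`
  have hQ : ∀ p : {p : (Fin k → ZMod 2) →ₗ[ZMod 2] (Fin (3 * μ) → ZMod 2) //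
      ∀ v ∈ U, p v ∉ heavy μ}, ∃ Q : Submodule (ZMod 2) (Fin (3 * μ) → ZMod 2),
      finrank (ZMod 2) Q = 2 * μ ∧ ∀ v ∈ U, p.1 v ∈ Q := by
    rintro ⟨p, hp⟩
    have h1 : finrank (ZMod 2) (U.map p) ≤ 2 * μ := by
      by_contra hcon
      push Not at hcon
      obtain ⟨v, hv, hv2⟩ := heavy_hits μ (U.map p) hcon
      obtain ⟨u, hu, rfl⟩ := Submodule.mem_map.1 hv
      exact hp u hu hv2
    obtain ⟨Q, hQ1, hQ2⟩ := exists_dim_between (U.map p) h1 (by rw [hW]; omega)
    exact ⟨Q, hQ2, fun v hv => hQ1 (Submodule.mem_map_of_mem hv)⟩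
  choose Q hQ1 hQ2 using hQ
  let F : {p : (Fin k → ZMod 2) →ₗ[ZMod 2] (Fin (3 * μ) → ZMod 2) //
      ∀ v ∈ U, p v ∉ heavy μ} →
      (Σ Q : {Q : Submodule (ZMod 2) (Fin (3 * μ) → ZMod 2) // finrank (ZMod 2) Q = 2 * μ},
        {p : (Fin k → ZMod 2) →ₗ[ZMod 2] (Fin (3 * μ) → ZMod 2) // ∀ v ∈ U, p v ∈ Q.1}) :=
    fun p => ⟨⟨Q p, hQ1 p⟩, ⟨p.1, hQ2 p⟩⟩
  have hF : Function.Injective F := by
    intro p q h
    have h2 : (F p).2.1 = (F q).2.1 := by rw [h]
    exact Subtype.ext h2
  have hfin1 : Finite ((Fin k → ZMod 2) →ₗ[ZMod 2] (Fin (3 * μ) → ZMod 2)) :=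
    Finite.of_injective (fun f => (f : (Fin k → ZMod 2) → (Fin (3 * μ) → ZMod 2)))
      DFunLike.coe_injective
  have hfin2 : Finite (Submodule (ZMod 2) (Fin (3 * μ) → ZMod 2)) :=
    Finite.of_injective (fun Q => (Q : Set (Fin (3 * μ) → ZMod 2))) SetLike.coe_injective
  have hFt : Fintype {Q : Submodule (ZMod 2) (Fin (3 * μ) → ZMod 2) //
    finrank (ZMod 2) Q = 2 * μ} := Fintype.ofFinite _
  have h3 := Nat.card_le_card_of_injective F hF
  rw [Nat.card_sigma] at h3
  have h4 : ∀ Q : {Q : Submodule (ZMod 2) (Fin (3 * μ) → ZMod 2) //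
      finrank (ZMod 2) Q = 2 * μ},
      Nat.card {p : (Fin k → ZMod 2) →ₗ[ZMod 2] (Fin (3 * μ) → ZMod 2) //
        ∀ v ∈ U, p v ∈ Q.1} * 2 ^ (12 * μ ^ 2) = 2 ^ (3 * μ * k) := by
    intro Q
    have h5 := card_maps_into U Q.1
    rw [hU, hW, hE, Q.2] at h5
    have h6 : 12 * μ * (3 * μ - 2 * μ) = 12 * μ ^ 2 := by
      have : 3 * μ - 2 * μ = μ := by omega
      rw [this]; ring
    have h7 : k * (3 * μ) = 3 * μ * k := by ring
    rw [h6, h7] at h5
    exact h5
  have h8 : Nat.card {Q : Submodule (ZMod 2) (Fin (3 * μ) → ZMod 2) //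
      finrank (ZMod 2) Q = 2 * μ} ≤ 2 ^ (6 * μ ^ 2) := by
    have h9 := card_subspaces_le (Fin (3 * μ) → ZMod 2) (2 * μ)
    rw [hW] at h9
    have h10 : 2 * μ * (3 * μ) = 6 * μ ^ 2 := by ring
    rwa [h10] at h9
  have h11 : (∑ Q : {Q : Submodule (ZMod 2) (Fin (3 * μ) → ZMod 2) //
      finrank (ZMod 2) Q = 2 * μ}, Nat.card {p : (Fin k → ZMod 2) →ₗ[ZMod 2]
        (Fin (3 * μ) → ZMod 2) // ∀ v ∈ U, p v ∈ Q.1}) * 2 ^ (12 * μ ^ 2) ≤
      2 ^ (6 * μ ^ 2) * 2 ^ (3 * μ * k) := by
    rw [Finset.sum_mul, Finset.sum_congr rfl (fun Q _ => h4 Q), Finset.sum_const,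
      Finset.card_univ, smul_eq_mul, ← Nat.card_eq_fintype_card]
    exact Nat.mul_le_mul_right _ h8
  have h12 : (12 * μ ^ 2) = 6 * μ ^ 2 + 6 * μ ^ 2 := by ring
  rw [h12, pow_add, ← mul_assoc, mul_comm (2 ^ (6 * μ ^ 2)) (2 ^ (3 * μ * k))] at h11
  have h13 := Nat.le_of_mul_le_mul_right h11 (by positivity)
  exact (Nat.mul_le_mul_right _ h3).trans h13

end Pool.Agent.RF
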