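import Mathlib
import Pool.Agent.Helper74.RF.Heavy
import Pool.Agent.Helper74.RF.Basic

/-!
# RF-6: a family of sum-free sets

Proof. `k = 12Cμ`, `u = 12μ`. Let `M` be the set of all linear maps `𝔽₂^k → 𝔽₂^{3μ}`,
`|M| = 2^(3μk)`. For `p ∈ M^t` consider the sets `p_i⁻¹(heavy μ)`, which are sum-free. Call a pair
`(U, I)` (`U` a subspace of dimension `12μ`, `I` a set of exactly `48C` indices) bad for `p` if
`p_i(U)` has no heavy vector for all `i ∈ I`. By `card_bad_maps` the number of `p` for which a given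
pair is bad is at most `|M|^t * 2^(-6μ²·48C)`. The number of pairs is at most
`2^(12μ·12Cμ) * t^(48C) ≤ 2^(144Cμ² + 96Cμ²)` (`card_subspaces_le`; a set of `48C` indices is the
image of a function `Fin (48C) → Fin t`). Since `144 + 96 < 288` and `C, μ ≥ 1` there is a `p` for
which no pair is bad. Put `L i = p_i⁻¹(heavy μ)` if this is nonempty and `L i = {w₀}` for a fixed
`w₀ ≠ 0` otherwise (`{w₀}` is sum-free in characteristic two; `12Cμ ≥ 1`). If `U` is missed by at
least `48C` of the `L i` then it is missed by `p_i⁻¹(heavy μ)` for these `i` (enlarging an empty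
set only helps), contradiction. The case `t < 48C` is no problem.
-/

set_option autoImplicit false

namespace Pool.Agent.RF

open Module

theorem exists_family (μ C t : ℕ) (hμ : 1 ≤ μ) (hC : 1 ≤ C) (ht : t ≤ 2 ^ (2 * μ ^ 2)) :
    ∃ L : Fin t → Set (Fin (12 * C * μ) → ZMod 2), (∀ i, SumFree (L i)) ∧
      (∀ i, (L i).Nonempty) ∧
      ∀ U : Submodule (ZMod 2) (Fin (12 * C * μ) → ZMod 2), finrank (ZMod 2) U = 12 * μ →
        Set.ncard {i : Fin t | ∀ v ∈ U, v ∉ L i} < 48 * C := by
  classical
  set k := 12 * C * μ with hk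
  let E := Fin k → ZMod 2
  let M := E →ₗ[ZMod 2] (Fin (3 * μ) → ZMod 2)
  have : Finite M := Finite.of_injective (fun f : M => (f : E → (Fin (3 * μ) → ZMod 2)))
    DFunLike.coe_injective
  have : Fintype M := Fintype.ofFinite M
  have : Finite (Submodule (ZMod 2) E) := Finite.of_injective
    (fun V : Submodule (ZMod 2) E => (V : Set E)) SetLike.coe_injective
  have : Fintype (Submodule (ZMod 2) E) := Fintype.ofFinite _
  have hM : Fintype.card M = 2 ^ (3 * μ * k) := by
    have h1 : Nat.card M = Nat.card (ZMod 2) ^ finrank (ZMod 2) M :=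
      Module.natCard_eq_pow_finrank (K := ZMod 2) (V := M)
    rw [← Nat.card_eq_fintype_card, h1, Module.finrank_linearMap, Module.finrank_fin_fun,
      Module.finrank_fin_fun]
    simp [mul_comm]
  let Bad : Submodule (ZMod 2) E → Finset M := fun U =>
    Finset.univ.filter (fun p : M => ∀ v ∈ U, p v ∉ heavy μ)
  let Subs : Finset (Submodule (ZMod 2) E) :=
    Finset.univ.filter (fun U => finrank (ZMod 2) U = 12 * μ)
  let B : Submodule (ZMod 2) E → Finset (Fin t) → Finset (Fin t → M) := fun U I =>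
    Fintype.piFinset (fun i => if i ∈ I then Bad U else Finset.univ)
  have hBad : ∀ U ∈ Subs, (Bad U).card * 2 ^ (6 * μ ^ 2) ≤ 2 ^ (3 * μ * k) := by
    intro U hU
    have h := card_bad_maps μ k U (Finset.mem_filter.mp hU).2
    rwa [Nat.card_eq_fintype_card, Fintype.card_subtype] at h
  have hB : ∀ U ∈ Subs, ∀ I ∈ Finset.powersetCard (48 * C) (Finset.univ : Finset (Fin t)),
      (B U I).card * 2 ^ (288 * C * μ ^ 2) ≤ (2 ^ (3 * μ * k)) ^ t := by
    intro U hU I hI
    have hIc : I.card = 48 * C := (Finset.mem_powersetCard.mp hI).2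
    have h1 : (B U I).card = ∏ i : Fin t, (if i ∈ I then Bad U else Finset.univ).card :=
      Fintype.card_piFinset _
    have h2 : 2 ^ (288 * C * μ ^ 2) = ∏ i : Fin t, (if i ∈ I then 2 ^ (6 * μ ^ 2) else 1) := by
      rw [Finset.prod_ite_mem, Finset.univ_inter, Finset.prod_const, hIc, ← pow_mul]
      congr 1
      ring
    rw [h1, h2, ← Finset.prod_mul_distrib]
    calc ∏ i : Fin t, ((if i ∈ I then Bad U else Finset.univ).card *
          (if i ∈ I then 2 ^ (6 * μ ^ 2) else 1)) ≤ ∏ _i : Fin t, 2 ^ (3 * μ * k) := by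
          apply Finset.prod_le_prod' 
          intro i _
          by_cases hi : i ∈ I
          · simpa [hi] using hBad U hU
          · simp [hi, hM]
      _ = (2 ^ (3 * μ * k)) ^ t := by simp
  have hSubs : Subs.card ≤ 2 ^ (144 * C * μ ^ 2) := by
    have h := card_subspaces_le E (12 * μ)
    rw [Nat.card_eq_fintype_card, Fintype.card_subtype, Module.finrank_fin_fun] at h
    refine h.trans (le_of_eq ?_)
    congr 1
    rw [hk]
    ring
  have hPow : (Finset.powersetCard (48 * C) (Finset.univ : Finset (Fin t))).card ≤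
      2 ^ (96 * C * μ ^ 2) := by
    rw [Finset.card_powersetCard, Finset.card_univ, Fintype.card_fin]
    calc t.choose (48 * C) ≤ t ^ (48 * C) := Nat.choose_le_pow t (48 * C)
      _ ≤ (2 ^ (2 * μ ^ 2)) ^ (48 * C) := Nat.pow_le_pow_left ht _
      _ = 2 ^ (96 * C * μ ^ 2) := by rw [← pow_mul]; congr 1; ring
  obtain ⟨p, hp⟩ : ∃ p : Fin t → M, ∀ U ∈ Subs,
      ∀ I ∈ Finset.powersetCard (48 * C) (Finset.univ : Finset (Fin t)), p ∉ B U I := by
    by_contra hcon
    push Not at hcon
    have hcov : (Finset.univ : Finset (Fin t → M)) ⊆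
        Subs.biUnion (fun U =>
          (Finset.powersetCard (48 * C) (Finset.univ : Finset (Fin t))).biUnion (fun I => B U I)) := by
      intro p _
      obtain ⟨U, hU, I, hI, hpI⟩ := hcon p
      exact Finset.mem_biUnion.mpr ⟨U, hU, Finset.mem_biUnion.mpr ⟨I, hI, hpI⟩⟩
    have hcard := Finset.card_le_card hcov
    have hN : (Finset.univ : Finset (Fin t → M)).card = (2 ^ (3 * μ * k)) ^ t := by
      rw [Finset.card_univ, Fintype.card_fun, hM, Fintype.card_fin]
    rw [hN] at hcard
    have h3 : (2 ^ (3 * μ * k)) ^ t ≤ ∑ U ∈ Subs,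
        ∑ I ∈ Finset.powersetCard (48 * C) (Finset.univ : Finset (Fin t)), (B U I).card :=
      hcard.trans (Finset.card_biUnion_le.trans
        (Finset.sum_le_sum fun U _ => Finset.card_biUnion_le))
    have h4 : (2 ^ (3 * μ * k)) ^ t * 2 ^ (288 * C * μ ^ 2) ≤
        2 ^ (144 * C * μ ^ 2) * (2 ^ (96 * C * μ ^ 2) * (2 ^ (3 * μ * k)) ^ t) := by
      calc (2 ^ (3 * μ * k)) ^ t * 2 ^ (288 * C * μ ^ 2)
          ≤ (∑ U ∈ Subs, ∑ I ∈ Finset.powersetCard (48 * C) (Finset.univ : Finset (Fin t)),
              (B U I).card) * 2 ^ (288 * C * μ ^ 2) := Nat.mul_le_mul_right _ h3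
        _ = ∑ U ∈ Subs, ∑ I ∈ Finset.powersetCard (48 * C) (Finset.univ : Finset (Fin t)),
              (B U I).card * 2 ^ (288 * C * μ ^ 2) := by
            simp only [Finset.sum_mul]
        _ ≤ ∑ U ∈ Subs, ∑ I ∈ Finset.powersetCard (48 * C) (Finset.univ : Finset (Fin t)),
              (2 ^ (3 * μ * k)) ^ t :=
            Finset.sum_le_sum fun U hU => Finset.sum_le_sum fun I hI => hB U hU I hI
        _ = Subs.card * ((Finset.powersetCard (48 * C) (Finset.univ : Finset (Fin t))).card *
              (2 ^ (3 * μ * k)) ^ t) := by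
            simp only [Finset.sum_const, smul_eq_mul]
        _ ≤ _ := Nat.mul_le_mul hSubs (Nat.mul_le_mul_right _ hPow)
    have h5 : 2 ^ (288 * C * μ ^ 2) ≤ 2 ^ (144 * C * μ ^ 2) * 2 ^ (96 * C * μ ^ 2) := by
      have hpos : 0 < (2 ^ (3 * μ * k)) ^ t := by positivity
      refine le_of_mul_le_mul_left ?_ hpos
      refine h4.trans (le_of_eq ?_)
      ring
    rw [← pow_add] at h5
    have h6 := (Nat.pow_le_pow_iff_right (by norm_num : 1 < 2)).mp h5
    have h7 : 0 < C * μ ^ 2 := by positivity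
    nlinarith [h6, h7]
  have hk1 : 0 < k := by rw [hk]; positivity
  let w₀ : E := fun _ => 1
  have hw₀ : w₀ ≠ 0 := by
    intro h
    have h1 : (1 : ZMod 2) = 0 := congrFun h ⟨0, hk1⟩
    exact absurd h1 (by decide)
  have hw₀sf : SumFree ({w₀} : Set E) := by
    intro x hx y hy hxy
    rw [Set.mem_singleton_iff] at hx hy hxy
    subst hx
    rw [hy] at hxy
    apply hw₀
    have h2 : w₀ + w₀ = 0 := by
      funext i
      change (1 : ZMod 2) + 1 = 0
      decide
    rw [← hxy, h2]
  refine ⟨fun i => if ((p i : E → _) ⁻¹' heavy μ).Nonempty then (p i : E → _) ⁻¹' heavy μ else {w₀},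
    ?_, ?_, ?_⟩
  · intro i
    by_cases h : ((p i : E → _) ⁻¹' heavy μ).Nonempty
    · simp only [h, if_true]
      exact (heavy_sumFree μ).preimage (p i)
    · simp only [h, if_false]
      exact hw₀sf
  · intro i
    by_cases h : ((p i : E → _) ⁻¹' heavy μ).Nonempty
    · simp only [h, if_true]
    · simp only [h, if_false]
      exact Set.singleton_nonempty _
  · intro U hU
    by_contra hcon
    push Not at hcon
    rw [Set.ncard_eq_toFinset_card'] at hcon
    obtain ⟨I, hIs, hIc⟩ := Finset.exists_subset_card_eq hcon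
    refine hp U (Finset.mem_filter.mpr ⟨Finset.mem_univ _, hU⟩) I
      (Finset.mem_powersetCard.mpr ⟨Finset.subset_univ _, hIc⟩) ?_
    rw [Fintype.mem_piFinset]
    intro i
    by_cases hi : i ∈ I
    · simp only [hi, if_true]
      refine Finset.mem_filter.mpr ⟨Finset.mem_univ _, ?_⟩
      intro v hv hheavy
      have h1 := hIs hi
      rw [Set.mem_toFinset, Set.mem_ofPred_eq] at h1
      have h2 := h1 v hv
      have hne : ((p i : E → _) ⁻¹' heavy μ).Nonempty := ⟨v, hheavy⟩
      simp only [hne, if_true] at h2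
      exact h2 hheavy
    · simp [hi]

end Pool.Agent.RF
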