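import Mathlib

/-!
# RF-10: a Fekete lemma with logarithmic error

`fekete_base`. Let `a = d₀ + 2c`, `L q = Nat.log 2 q`. Show by strong induction on `q ≥ 1`:
`q n₀ ≤ f (q a - 2 (L q + c))` (natural subtraction is harmless: `q a ≥ 2 (L q + c)` because
`a ≥ 2 c + 1`, `q ≥ L q + 1`, `c ≥ 3`).
`q = 1`: `a - 2c = d₀`. `q ≥ 2`: `q₁ = q / 2`, `q₂ = q - q₁`; `L q₁ = L q - 1`, `L q₂ ≥ L q - 1`.
With `d₁ = q₁ a - 2 (L q₁ + c)`, `d₂ = q₂ a - 2 (L q₂ + c)`, `d = q a - 2 (L q + c)` we have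
`d - d₁ - d₂ = 2 (L q₁ + L q₂ + c - L q) ≥ 2 (L q + c - 2)`, and
`d * (q n₀) ≤ q a * (q C a) ≤ C a² q² ≤ 4^(c-3) * 4^(L q + 1) = 2^(2 (L q + c - 2))`.
So `hsup` gives the claim. (`d₁, d₂ ≥ 1`: `d₁ ≥ q₁ a - 2 (L q₁ + c) ≥ 1` as `q₁ ≥ L q₁ + 1`,
`a ≥ 2c + 1`, `2c + 1 ≥ 2`.) Monotonicity of `f` gives the statement.

`fekete_limit`. Let `ρ = liminf f d / d`, finite by `hfin` (and `≥ 0`). Let `C > ρ + 1` be an
integer. Let `ε ∈ (0, 1/2)` and suppose `f d₀ ≥ (ρ + 2ε) d₀` for arbitrarily large `d₀`. Take such a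
large `d₀`, `n₀ = min (f d₀) (C d₀) ≥ (ρ + 2 ε) d₀` and `c` = the least integer with `c ≥ 3` and
`C (d₀ + 2c)² ≤ 4^(c-3)`, so `c ≤ ε' d₀` (`c = O(log d₀)`). By `fekete_base`, for every `d`,
`f d ≥ (d / (d₀ + 2c)) n₀ ≥ (d / (d₀ + 2c) - 1) n₀` (first quotient rounded down, then real), so
`liminf f d / d ≥ n₀ / (d₀ + 2c) ≥ (ρ + 2ε) / (1 + 2ε') > ρ + ε / 2`, contradiction. Hence
`limsup f d / d ≤ ρ`.
-/

set_option autoImplicit false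

namespace Pool.Agent.RF

open Filter Topology

private lemma log_half (q : ℕ) : Nat.log 2 (q / 2) = Nat.log 2 q - 1 :=
  Nat.log_div_base 2 q

private lemma succ_log_le {q : ℕ} (hq : 1 ≤ q) : Nat.log 2 q + 1 ≤ q := by
  have h1 : 2 ^ Nat.log 2 q ≤ q := Nat.pow_log_le_self 2 (by omega)
  have h2 : Nat.log 2 q < 2 ^ Nat.log 2 q := Nat.lt_two_pow_self
  omega

private lemma size_aux {q l a c : ℕ} (hl : l + 1 ≤ q) (ha : 2 * c + 1 ≤ a) (hc : 3 ≤ c) :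
    2 * (l + c) + 1 ≤ q * a := by
  have h1 : (l + 1) * (2 * c + 1) ≤ q * a := Nat.mul_le_mul hl ha
  have h2 : (l + 1) * (2 * c + 1) = 2 * c * l + l + 2 * c + 1 := by ring
  have h3 : 6 * l ≤ 2 * c * l := Nat.mul_le_mul_right _ (by omega)
  omega

private lemma base_aux (f : ℕ → ℕ)
    (hsup : ∀ d₁ d₂ d n₁ n₂ : ℕ, 1 ≤ d₁ → 1 ≤ d₂ → n₁ ≤ f d₁ → n₂ ≤ f d₂ → d₁ + d₂ ≤ d →
      d * (n₁ + n₂) ≤ 2 ^ (d - d₁ - d₂) → n₁ + n₂ ≤ f d)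
    (C d₀ n₀ c : ℕ) (hd₀ : 1 ≤ d₀) (hn₀ : n₀ ≤ f d₀) (hC : n₀ ≤ C * d₀) (hc3 : 3 ≤ c)
    (hc : C * (d₀ + 2 * c) ^ 2 ≤ 4 ^ (c - 3)) (q : ℕ) (hq : 1 ≤ q) :
    q * n₀ ≤ f (q * (d₀ + 2 * c) - 2 * (Nat.log 2 q + c)) := by
  induction q using Nat.strong_induction_on with
  | _ q ih =>
    obtain ⟨a, ha⟩ : ∃ a, a = d₀ + 2 * c := ⟨_, rfl⟩
    rw [← ha] at ih hc ⊢
    have ha1 : 2 * c + 1 ≤ a := by omega
    rcases Nat.lt_or_ge q 2 with h2 | h2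
    · have : q = 1 := by omega
      subst this
      have e : 1 * a - 2 * (Nat.log 2 1 + c) = d₀ := by
        simp only [Nat.log_one_right]
        omega
      rw [e, one_mul]
      exact hn₀
    · obtain ⟨q₁, hq₁⟩ : ∃ q₁, q₁ = q / 2 := ⟨_, rfl⟩
      obtain ⟨q₂, hq₂⟩ : ∃ q₂, q₂ = q - q₁ := ⟨_, rfl⟩
      have hq₁1 : 1 ≤ q₁ := by omega
      have hq₂1 : 1 ≤ q₂ := by omega
      have hsum : q₁ + q₂ = q := by omega
      have ih₁ := ih q₁ (by omega) hq₁1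
      have ih₂ := ih q₂ (by omega) hq₂1
      have hl₁ : Nat.log 2 q₁ = Nat.log 2 q - 1 := by rw [hq₁]; exact log_half q
      have hl₂ : Nat.log 2 q - 1 ≤ Nat.log 2 q₂ := by
        rw [← hl₁]
        exact Nat.log_mono_right (by omega)
      have hl0 : 1 ≤ Nat.log 2 q := Nat.log_pos (by norm_num) h2
      have hql : q < 2 ^ (Nat.log 2 q + 1) := Nat.lt_pow_succ_log_self (by norm_num) q
      obtain ⟨l, hl⟩ : ∃ l, l = Nat.log 2 q := ⟨_, rfl⟩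
      obtain ⟨l₁, hl₁'⟩ : ∃ l, l = Nat.log 2 q₁ := ⟨_, rfl⟩
      obtain ⟨l₂, hl₂'⟩ : ∃ l, l = Nat.log 2 q₂ := ⟨_, rfl⟩
      have s₁ := size_aux (succ_log_le hq₁1) ha1 hc3
      have s₂ := size_aux (succ_log_le hq₂1) ha1 hc3
      have s₀ := size_aux (succ_log_le hq) ha1 hc3
      rw [← hl, ← hl₁'] at hl₁
      rw [← hl, ← hl₂'] at hl₂
      rw [← hl] at hl0 hql s₀ ⊢
      rw [← hl₁'] at s₁ ih₁
      rw [← hl₂'] at s₂ ih₂
      have hqa : q * a = q₁ * a + q₂ * a := by rw [← hsum]; ring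
      obtain ⟨u₁, hu₁⟩ : ∃ u, u = q₁ * a := ⟨_, rfl⟩
      obtain ⟨u₂, hu₂⟩ : ∃ u, u = q₂ * a := ⟨_, rfl⟩
      obtain ⟨u, hu⟩ : ∃ u, u = q * a := ⟨_, rfl⟩
      rw [← hu₁] at s₁ ih₁
      rw [← hu₂] at s₂ ih₂
      rw [← hu, ← hu₁, ← hu₂] at hqa
      rw [← hu] at s₀ ⊢
      have hn : q * n₀ = q₁ * n₀ + q₂ * n₀ := by rw [← hsum]; ring
      rw [hn]
      refine hsup _ _ _ _ _ (by omega) (by omega) ih₁ ih₂ (by omega) ?_
      have hexp : 2 * (l + c - 2) ≤ u - 2 * (l + c) - (u₁ - 2 * (l₁ + c)) -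
          (u₂ - 2 * (l₂ + c)) := by omega
      calc (u - 2 * (l + c)) * (q₁ * n₀ + q₂ * n₀) ≤ u * (q₁ * n₀ + q₂ * n₀) :=
            Nat.mul_le_mul_right _ (Nat.sub_le _ _)
        _ = (q * a) * (q * n₀) := by rw [← hn, hu]
        _ ≤ (q * a) * (q * (C * a)) := by
            apply Nat.mul_le_mul_left
            apply Nat.mul_le_mul_left
            exact hC.trans (Nat.mul_le_mul_left _ (by omega))
        _ = q ^ 2 * (C * a ^ 2) := by ring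
        _ ≤ (2 ^ (l + 1)) ^ 2 * 4 ^ (c - 3) :=
            Nat.mul_le_mul (Nat.pow_le_pow_left hql.le 2) hc
        _ = 2 ^ (2 * (l + c - 2)) := by
            have e4 : (4 : ℕ) = 2 ^ 2 := by norm_num
            rw [e4, ← pow_mul, ← pow_mul, ← pow_add]
            congr 1
            omega
        _ ≤ _ := Nat.pow_le_pow_right (by norm_num) hexp

theorem fekete_base (f : ℕ → ℕ) (hmono : Monotone f)
    (hsup : ∀ d₁ d₂ d n₁ n₂ : ℕ, 1 ≤ d₁ → 1 ≤ d₂ → n₁ ≤ f d₁ → n₂ ≤ f d₂ → d₁ + d₂ ≤ d →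
      d * (n₁ + n₂) ≤ 2 ^ (d - d₁ - d₂) → n₁ + n₂ ≤ f d)
    (C d₀ n₀ c : ℕ) (hd₀ : 1 ≤ d₀) (hn₀ : n₀ ≤ f d₀) (hC : n₀ ≤ C * d₀) (hc3 : 3 ≤ c)
    (hc : C * (d₀ + 2 * c) ^ 2 ≤ 4 ^ (c - 3)) (q : ℕ) : q * n₀ ≤ f (q * (d₀ + 2 * c)) := by
  rcases Nat.eq_zero_or_pos q with rfl | hq
  · simp
  · exact (base_aux f hsup C d₀ n₀ c hd₀ hn₀ hC hc3 hc q hq).trans (hmono (Nat.sub_le _ _))

private lemma sq_le_two_pow (c : ℕ) : (c + 1) ^ 2 ≤ 9 * 2 ^ c := by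
  induction c with
  | zero => norm_num
  | succ c ih =>
    rcases Nat.lt_or_ge c 2 with h | h
    · interval_cases c <;> norm_num
    · rw [pow_succ 2 c]
      nlinarith

private lemma exp_large (K : ℕ) : ∃ c₀ : ℕ, ∀ c, c₀ ≤ c → K * (c + 1) ^ 2 ≤ 4 ^ (c - 3) := by
  refine ⟨576 * K + 3, fun c hc => ?_⟩
  obtain ⟨e, rfl⟩ : ∃ e, c = e + 3 := ⟨c - 3, by omega⟩
  have h1 : 576 * K ≤ 2 ^ (e + 3) := by
    have : e + 3 < 2 ^ (e + 3) := Nat.lt_two_pow_self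
    omega
  have h2 := sq_le_two_pow (e + 3)
  have e1 : e + 3 - 3 = e := by omega
  rw [e1]
  have h3 : 64 * (K * (e + 3 + 1) ^ 2) ≤ 64 * 4 ^ e := by
    calc 64 * (K * (e + 3 + 1) ^ 2) ≤ 64 * (K * (9 * 2 ^ (e + 3))) := by gcongr
      _ = (576 * K) * 2 ^ (e + 3) := by ring
      _ ≤ 2 ^ (e + 3) * 2 ^ (e + 3) := Nat.mul_le_mul_right _ h1
      _ = 64 * 4 ^ e := by
          have e4 : (4 : ℕ) = 2 * 2 := by norm_num
          rw [e4, mul_pow]; ring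
  omega

/-- If `f d₀` is large for one suitable `d₀` then `f d / d` is eventually large. -/
private lemma upper_step (f : ℕ → ℕ) (hmono : Monotone f)
    (hsup : ∀ d₁ d₂ d n₁ n₂ : ℕ, 1 ≤ d₁ → 1 ≤ d₂ → n₁ ≤ f d₁ → n₂ ≤ f d₂ → d₁ + d₂ ≤ d →
      d * (n₁ + n₂) ≤ 2 ^ (d - d₁ - d₂) → n₁ + n₂ ≤ f d)
    {ρ ε : ℝ} (hρ : 0 ≤ ρ) (hε : 0 < ε) (hε1 : ε ≤ 1)
    (hfr : ∃ᶠ d : ℕ in atTop, (ρ + ε) * d ≤ f d) :
    ∀ᶠ d : ℕ in atTop, (ρ + ε / 4) * d < f d := by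
  obtain ⟨C, hC⟩ := exists_nat_ge (ρ + 1)
  obtain ⟨m, hm⟩ := exists_nat_ge (4 * (ρ + ε / 2) / ε + 2)
  have hm2 : 2 ≤ m := by
    have : (2 : ℝ) ≤ m := by
      have : 0 ≤ 4 * (ρ + ε / 2) / ε := by positivity
      linarith
    exact_mod_cast this
  have hm0 : (0 : ℝ) < m := by exact_mod_cast (by omega : 0 < m)
  have hmε : 4 * (ρ + ε / 2) ≤ ε * m := by
    have : 4 * (ρ + ε / 2) / ε ≤ m := by linarith
    rw [div_le_iff₀ hε] at this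
    linarith
  obtain ⟨c₀, hc₀⟩ := exp_large (9 * C * m ^ 2)
  obtain ⟨d₀, hd₀, hfd₀⟩ := (Filter.frequently_atTop.1 hfr) (m * (c₀ + 3))
  obtain ⟨c, hc⟩ : ∃ c, c = d₀ / m := ⟨_, rfl⟩
  have hmpos : 0 < m := by omega
  have hc1 : c₀ + 3 ≤ c := by
    rw [hc, Nat.le_div_iff_mul_le hmpos]
    linarith [hd₀, Nat.mul_comm m (c₀ + 3)]
  have hc2 : c * m ≤ d₀ := by rw [hc]; exact Nat.div_mul_le_self _ _
  have hc3 : d₀ ≤ m * (c + 1) := by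
    rw [hc]
    exact (Nat.lt_mul_div_succ d₀ hmpos).le
  have hd₀1 : 1 ≤ d₀ := by
    have : 1 ≤ m * (c₀ + 3) := Nat.mul_pos hmpos (by omega)
    omega
  have hcd : 2 * c ≤ 2 * d₀ := by
    have : c * 1 ≤ c * m := Nat.mul_le_mul_left _ (by omega)
    omega
  have hcc : C * (d₀ + 2 * c) ^ 2 ≤ 4 ^ (c - 3) := by
    calc C * (d₀ + 2 * c) ^ 2 ≤ C * (3 * (m * (c + 1))) ^ 2 := by
          gcongr
          omega
      _ = 9 * C * m ^ 2 * (c + 1) ^ 2 := by ring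
      _ ≤ 4 ^ (c - 3) := hc₀ c (by omega)
  obtain ⟨n₀, hn₀⟩ : ∃ n₀, n₀ = min (f d₀) (C * d₀) := ⟨_, rfl⟩
  have hb := fekete_base f hmono hsup C d₀ n₀ c hd₀1 (by rw [hn₀]; exact min_le_left _ _)
    (by rw [hn₀]; exact min_le_right _ _) (by omega) hcc
  have hd₀r : (0 : ℝ) < d₀ := by exact_mod_cast hd₀1
  have hn₀r : (ρ + ε) * d₀ ≤ n₀ := by
    rw [hn₀, Nat.cast_min]
    refine le_min hfd₀ ?_
    push_cast
    exact mul_le_mul_of_nonneg_right (by linarith) hd₀r.le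
  obtain ⟨a, ha⟩ : ∃ a, a = d₀ + 2 * c := ⟨_, rfl⟩
  rw [← ha] at hb
  have ha0 : (0 : ℝ) < a := by
    rw [ha]; push_cast; positivity
  have hapos : 0 < a := by exact_mod_cast ha0
  have harat : (a : ℝ) * m ≤ d₀ * (m + 2) := by
    have h1 : (c : ℝ) * m ≤ d₀ := by exact_mod_cast hc2
    rw [ha]; push_cast
    nlinarith
  -- `n₀ / a` is larger than `ρ + ε / 2`
  have hkey : (ρ + ε / 2) * a ≤ n₀ := by
    have h1 : (ρ + ε / 2) * (a * m) ≤ (ρ + ε / 2) * (d₀ * (m + 2)) :=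
      mul_le_mul_of_nonneg_left harat (by positivity)
    have h2 : (ρ + ε / 2) * (d₀ * (m + 2)) ≤ (ρ + ε) * d₀ * m := by
      have : (ρ + ε / 2) * (m + 2) ≤ (ρ + ε) * m := by nlinarith
      nlinarith
    have h3 : (ρ + ε) * d₀ * m ≤ n₀ * m := mul_le_mul_of_nonneg_right hn₀r hm0.le
    have h4 : (ρ + ε / 2) * a * m ≤ n₀ * m := by nlinarith
    exact le_of_mul_le_mul_right h4 hm0
  -- large `d`
  obtain ⟨D, hD⟩ := exists_nat_gt (4 * (n₀ : ℝ) / ε)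
  filter_upwards [Filter.eventually_ge_atTop (D + 1)] with d hd
  have hdD : (D : ℝ) < d := by exact_mod_cast (by omega : D < d)
  have hd0 : (0 : ℝ) < d := lt_of_le_of_lt (Nat.cast_nonneg D) hdD
  have h1 : (d / a) * n₀ ≤ f d := (hb (d / a)).trans (hmono (Nat.div_mul_le_self _ _))
  have h1r : ((d / a : ℕ) : ℝ) * n₀ ≤ f d := by exact_mod_cast h1
  have h2 : (d : ℝ) < a * ((d / a : ℕ) + 1) := by
    exact_mod_cast Nat.lt_mul_div_succ d hapos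
  have h3 : (ρ + ε / 2) * d ≤ ((d / a : ℕ) + 1) * n₀ := by
    have h4 : (ρ + ε / 2) * d ≤ (ρ + ε / 2) * (a * ((d / a : ℕ) + 1)) :=
      mul_le_mul_of_nonneg_left h2.le (by positivity)
    have h5 : (ρ + ε / 2) * a * ((d / a : ℕ) + 1) ≤ n₀ * ((d / a : ℕ) + 1) :=
      mul_le_mul_of_nonneg_right hkey (by positivity)
    nlinarith
  have h4 : (n₀ : ℝ) < ε / 4 * d := by
    have : 4 * (n₀ : ℝ) / ε < d := hD.trans hdD
    rw [div_lt_iff₀ hε] at this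
    linarith
  nlinarith

theorem fekete_limit (f : ℕ → ℕ) (hmono : Monotone f)
    (hsup : ∀ d₁ d₂ d n₁ n₂ : ℕ, 1 ≤ d₁ → 1 ≤ d₂ → n₁ ≤ f d₁ → n₂ ≤ f d₂ → d₁ + d₂ ≤ d →
      d * (n₁ + n₂) ≤ 2 ^ (d - d₁ - d₂) → n₁ + n₂ ≤ f d)
    (hfin : ∃ C : ℕ, ∃ᶠ d in atTop, f d ≤ C * d) :
    ∃ ρ : ℝ, Tendsto (fun d : ℕ => (f d : ℝ) / d) atTop (𝓝 ρ) := by
  obtain ⟨C, hC⟩ := hfin
  let S : Set ℝ := {x | 0 ≤ x ∧ ∃ᶠ d : ℕ in atTop, (f d : ℝ) ≤ x * d}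
  have hSne : S.Nonempty := ⟨C, Nat.cast_nonneg C, hC.mono fun d hd => by exact_mod_cast hd⟩
  have hSb : BddBelow S := ⟨0, fun x hx => hx.1⟩
  obtain ⟨ρ, hρ⟩ : ∃ ρ, ρ = sInf S := ⟨_, rfl⟩
  have hρ0 : 0 ≤ ρ := by rw [hρ]; exact le_csInf hSne fun x hx => hx.1
  refine ⟨ρ, ?_⟩
  rw [Metric.tendsto_atTop']
  intro ε hε
  -- lower bound
  have hlow : ∀ᶠ d : ℕ in atTop, (ρ - ε) * d < f d := by
    by_contra hcon
    have hfr : ∃ᶠ d : ℕ in atTop, (f d : ℝ) ≤ (ρ - ε) * d := by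
      refine (Filter.not_eventually.1 hcon).mono fun d hd => ?_
      exact not_lt.1 hd
    rcases lt_or_ge (ρ - ε) 0 with h | h
    · have h1 : ∀ᶠ d : ℕ in atTop, ¬ ((f d : ℝ) ≤ (ρ - ε) * d) := by
        filter_upwards [Filter.eventually_ge_atTop 1] with d hd hle
        have hd0 : (0 : ℝ) < d := by exact_mod_cast hd
        have : (0 : ℝ) ≤ f d := Nat.cast_nonneg _
        nlinarith
      exact hfr h1
    · have : ρ ≤ ρ - ε := by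
        conv_lhs => rw [hρ]
        exact csInf_le hSb ⟨h, hfr⟩
      linarith
  -- upper bound
  have hup : ∀ᶠ d : ℕ in atTop, (f d : ℝ) < (ρ + ε) * d := by
    by_contra hcon
    have hfr : ∃ᶠ d : ℕ in atTop, (ρ + min ε 1) * d ≤ f d := by
      refine (Filter.not_eventually.1 hcon).mono fun d hd => ?_
      refine le_trans ?_ (not_lt.1 hd)
      have : (0 : ℝ) ≤ d := Nat.cast_nonneg _
      have h1 := min_le_left ε 1
      nlinarith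
    have hε' : 0 < min ε 1 := lt_min hε one_pos
    have h1 := upper_step f hmono hsup hρ0 hε' (min_le_right _ _) hfr
    obtain ⟨x, hxS, hx⟩ := exists_lt_of_csInf_lt hSne
      (show sInf S < ρ + min ε 1 / 4 by rw [← hρ]; linarith)
    obtain ⟨d, hd1, hd2⟩ := (hxS.2.and_eventually h1).exists
    have : (0 : ℝ) ≤ d := Nat.cast_nonneg _
    nlinarith
  obtain ⟨N, hN⟩ := Filter.eventually_atTop.1
    ((hlow.and hup).and (Filter.eventually_ge_atTop 1))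
  refine ⟨N, fun d hd => ?_⟩
  obtain ⟨⟨h1, h2⟩, h3⟩ := hN d hd.le
  have hd0 : (0 : ℝ) < d := by exact_mod_cast h3
  rw [Real.dist_eq, abs_lt]
  constructor
  · have : ρ - ε < (f d : ℝ) / d := by rw [lt_div_iff₀ hd0]; exact h1
    linarith
  · have : (f d : ℝ) / d < ρ + ε := by rw [div_lt_iff₀ hd0]; exact h2
    linarith

end Pool.Agent.RF
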