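import Mathlib

/-!
# RF-7: finding a level

Proof. For `0 ≤ i ≤ t` let `V i = {(w, x) ∈ V | x c = 0 for all c with lev c ≥ i}` (an increasing
chain of subspaces), `V t = V`, and `V 0 = V ∩ (W × 0)` has dimension at most `finrank W`.
`δ i = dim V (i+1) - dim V i ≤ #{c | lev c = i} ≤ e` since `V i` is the kernel of the restriction
of the coordinates of level `i` on `V (i+1)`. `∑ δ i = dim V - dim V 0 ≥ dim V - finrank W ≥
β e + t D`. If `δ i < D` for all `i ∉ B` then `∑ δ i ≤ (β - 1) e + t (D - 1) < β e + t D`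
(`t, D ≥ 1`), contradiction; so there is `i ∉ B` with `δ i ≥ D`. Let
`K j = {x | (0, x) ∈ V j}`; `dim K (i+1) ≥ dim V (i+1) - finrank W` (kernel of `V (i+1) → W`) and
`dim K i ≤ dim V i`. `F` is the image of `K (i+1)` under the restriction to the coordinates of
level `i` (zero elsewhere); the kernel of this restriction on `K (i+1)` is `K i`, so
`dim F = dim K (i+1) - dim K i ≥ δ i - finrank W ≥ D - finrank W`.
-/

set_option autoImplicit false

namespace Pool.Agent.RF

open Module

private lemma fr {E F : Type*} [AddCommGroup E] [Module (ZMod 2) E] [Module.Finite (ZMod 2) E]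
    [AddCommGroup F] [Module (ZMod 2) F] (f : E →ₗ[ZMod 2] F) (P : Submodule (ZMod 2) E) :
    finrank (ZMod 2) (P.map f) + finrank (ZMod 2) (P ⊓ LinearMap.ker f : Submodule (ZMod 2) E) =
      finrank (ZMod 2) P := by
  have h1 := LinearMap.finrank_range_add_finrank_ker (f.domRestrict P)
  have h2 : LinearMap.range (f.domRestrict P) = P.map f := by
    ext y
    simp [Submodule.mem_map]
  have h3 : (LinearMap.ker (f.domRestrict P)).map P.subtype = P ⊓ LinearMap.ker f := by
    ext y
    simp only [Submodule.mem_map, LinearMap.mem_ker, LinearMap.domRestrict_apply,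
      Submodule.subtype_apply, Submodule.mem_inf]
    constructor
    · rintro ⟨x, hx, rfl⟩
      exact ⟨x.2, hx⟩
    · rintro ⟨hy, hfy⟩
      exact ⟨⟨y, hy⟩, hfy, rfl⟩
  have h4 : finrank (ZMod 2) (LinearMap.ker (f.domRestrict P)) =
      finrank (ZMod 2) (P ⊓ LinearMap.ker f : Submodule (ZMod 2) E) := by
    rw [← h3]
    exact LinearEquiv.finrank_eq (Submodule.equivMapOfInjective _ P.subtype_injective _)
  rw [h2, h4] at h1
  exact h1

private lemma sum_bound {t e D b : ℕ} (f : ℕ → ℕ) (B : Finset (Fin t)) (hB : B.card ≤ b)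
    (h1 : ∀ i : Fin t, f (i + 1) ≤ f i + e) (h2 : ∀ i : Fin t, i ∉ B → f (i + 1) ≤ f i + D) :
    f t ≤ f 0 + b * e + t * D := by
  classical
  have key : ∀ j, j ≤ t → f j ≤ f 0 +
      ∑ i ∈ Finset.univ.filter (fun i : Fin t => (i : ℕ) < j), (if i ∈ B then e else D) := by
    intro j
    induction j with
    | zero => intro _; exact Nat.le_add_right _ _
    | succ j ih =>
      intro hj
      have h3 := ih (by omega)
      let i : Fin t := ⟨j, by omega⟩
      have h4 : Finset.univ.filter (fun i' : Fin t => (i' : ℕ) < j + 1) =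
          insert i (Finset.univ.filter (fun i' : Fin t => (i' : ℕ) < j)) := by
        ext x
        simp only [Finset.mem_filter, Finset.mem_univ, true_and, Finset.mem_insert, Fin.ext_iff, i]
        omega
      rw [h4, Finset.sum_insert (by simp [i])]
      have h5 : f (j + 1) ≤ f j + (if i ∈ B then e else D) := by
        split_ifs with h6
        · exact h1 i
        · exact h2 i h6
      omega
  have h3 := key t le_rfl
  have h4 : ∑ i ∈ Finset.univ.filter (fun i : Fin t => (i : ℕ) < t), (if i ∈ B then e else D) ≤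
      b * e + t * D := by
    calc ∑ i ∈ Finset.univ.filter (fun i : Fin t => (i : ℕ) < t), (if i ∈ B then e else D)
        ≤ ∑ i : Fin t, (if i ∈ B then e else D) :=
          Finset.sum_le_sum_of_subset (Finset.filter_subset _ _)
      _ ≤ ∑ i : Fin t, ((if i ∈ B then e else 0) + D) := by
          refine Finset.sum_le_sum fun i _ => ?_
          split_ifs <;> omega
      _ = B.card * e + t * D := by
          rw [Finset.sum_add_distrib, Finset.sum_ite_mem, Finset.univ_inter]
          simp
      _ ≤ b * e + t * D := Nat.add_le_add_right (Nat.mul_le_mul_right _ hB) _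
  omega

theorem exists_level {W : Type*} [AddCommGroup W] [Module (ZMod 2) W] [Module.Finite (ZMod 2) W]
    {n t e β D : ℕ} (V : Submodule (ZMod 2) (W × (Fin n → ZMod 2))) (lev : Fin n → Fin t)
    (hlev : ∀ i, (Finset.univ.filter (fun c => lev c = i)).card ≤ e) (B : Set (Fin t))
    (hB : B.ncard < β) (hD : finrank (ZMod 2) W + β * e + t * D ≤ finrank (ZMod 2) V)
    (ht : 1 ≤ t) (hD1 : 1 ≤ D) :
    ∃ i : Fin t, i ∉ B ∧ ∃ F : Submodule (ZMod 2) (Fin n → ZMod 2),
      D ≤ finrank (ZMod 2) F + finrank (ZMod 2) W ∧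
      ∀ y ∈ F, ∃ x : Fin n → ZMod 2, ((0 : W), x) ∈ V ∧ (∀ c, i < lev c → x c = 0) ∧
        ∀ c, y c = if lev c = i then x c else 0 := by
  classical
  -- the chain of subspaces
  let Z : ℕ → Submodule (ZMod 2) (W × (Fin n → ZMod 2)) := fun j =>
    { carrier := {q | ∀ c, j ≤ (lev c : ℕ) → q.2 c = 0}
      add_mem' := by
        intro a b ha hb c hc
        show a.2 c + b.2 c = 0
        rw [ha c hc, hb c hc, add_zero]
      zero_mem' := by intro c _; rfl
      smul_mem' := by
        intro r a ha c hc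
        show r • a.2 c = 0
        rw [ha c hc, smul_zero] }
  have hZ : ∀ j q, q ∈ Z j ↔ ∀ c, j ≤ (lev c : ℕ) → q.2 c = 0 := fun j q => Iff.rfl
  let f : ℕ → ℕ := fun j => finrank (ZMod 2) (V ⊓ Z j : Submodule (ZMod 2) _)
  have hft : f t = finrank (ZMod 2) V := by
    have : V ⊓ Z t = V := by
      refine inf_eq_left.2 ?_
      intro q _
      rw [hZ]
      intro c hc
      have := (lev c).2
      omega
    show finrank (ZMod 2) (V ⊓ Z t : Submodule (ZMod 2) _) = _
    rw [this]
  have hf0 : f 0 ≤ finrank (ZMod 2) W := by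
    have h1 := fr (LinearMap.fst (ZMod 2) W (Fin n → ZMod 2)) (V ⊓ Z 0)
    have h2 : (V ⊓ Z 0) ⊓ LinearMap.ker (LinearMap.fst (ZMod 2) W (Fin n → ZMod 2)) = ⊥ := by
      rw [eq_bot_iff]
      rintro q ⟨⟨_, hq2⟩, hq3⟩
      rw [Submodule.mem_bot]
      have h3 : q.1 = 0 := hq3
      have h4 : q.2 = 0 := by
        funext c
        exact hq2 c (Nat.zero_le _)
      exact Prod.ext h3 h4
    rw [h2, finrank_bot, add_zero] at h1
    show finrank (ZMod 2) (V ⊓ Z 0 : Submodule (ZMod 2) _) ≤ _
    rw [← h1]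
    exact Submodule.finrank_le _
  have hstep : ∀ i : Fin t, f (i + 1) ≤ f i + e := by
    intro i
    let R : (W × (Fin n → ZMod 2)) →ₗ[ZMod 2] ({c // lev c = i} → ZMod 2) :=
      (LinearMap.funLeft (ZMod 2) (ZMod 2) (fun c : {c // lev c = i} => c.1)).comp
        (LinearMap.snd (ZMod 2) W (Fin n → ZMod 2))
    have h1 := fr R (V ⊓ Z (i + 1))
    have h2 : (V ⊓ Z (i + 1)) ⊓ LinearMap.ker R = V ⊓ Z i := by
      ext q
      simp only [Submodule.mem_inf, LinearMap.mem_ker, hZ]
      constructor
      · rintro ⟨⟨hq1, hq2⟩, hq3⟩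
        refine ⟨hq1, fun c hc => ?_⟩
        rcases Nat.lt_or_ge (i : ℕ) (lev c) with h | h
        · exact hq2 c h
        · have h5 : lev c = i := Fin.ext (by omega)
          exact congrFun hq3 ⟨c, h5⟩
      · rintro ⟨hq1, hq2⟩
        refine ⟨⟨hq1, fun c hc => hq2 c (by omega)⟩, ?_⟩
        funext c
        have := c.2
        exact hq2 c.1 (by rw [this])
    have h3 : finrank (ZMod 2) ((V ⊓ Z (i + 1)).map R) ≤ e := by
      refine (Submodule.finrank_le _).trans ?_
      rw [finrank_fintype_fun_eq_card, Fintype.card_subtype]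
      exact hlev i
    rw [h2] at h1
    show finrank (ZMod 2) (V ⊓ Z (i + 1) : Submodule (ZMod 2) _) ≤
      finrank (ZMod 2) (V ⊓ Z i : Submodule (ZMod 2) _) + e
    omega
  -- a good level
  obtain ⟨i, hiB, hi⟩ : ∃ i : Fin t, i ∉ B ∧ f i + D ≤ f (i + 1) := by
    by_contra hcon
    push Not at hcon
    have hBf : B.toFinset.card ≤ β - 1 := by
      rw [← Set.ncard_eq_toFinset_card']
      omega
    have h1 := sum_bound (e := e) (D := D - 1) f B.toFinset hBf hstep (fun i hi => by
      have := hcon i (by simpa using hi)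
      omega)
    rw [hft] at h1
    have hβ : 1 ≤ β := by omega
    obtain ⟨β', rfl⟩ : ∃ β', β = β' + 1 := ⟨β - 1, by omega⟩
    obtain ⟨D', rfl⟩ : ∃ D', D = D' + 1 := ⟨D - 1, by omega⟩
    simp only [Nat.add_sub_cancel] at h1
    have h2 : t * (D' + 1) = t * D' + t := by ring
    have h3 : (β' + 1) * e = β' * e + e := by ring
    rw [h2, h3] at hD
    omega
  refine ⟨i, hiB, ?_⟩
  let P := (V ⊓ Z (i + 1)) ⊓ LinearMap.ker (LinearMap.fst (ZMod 2) W (Fin n → ZMod 2))
  let G : (W × (Fin n → ZMod 2)) →ₗ[ZMod 2] (Fin n → ZMod 2) :=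
    { toFun := fun q c => if lev c = i then q.2 c else 0
      map_add' := by
        intro a b
        funext c
        show (if lev c = i then a.2 c + b.2 c else 0) = _ + _
        simp only
        split_ifs <;> simp
      map_smul' := by
        intro r a
        funext c
        show (if lev c = i then r • a.2 c else 0) = r • _
        simp only
        split_ifs <;> simp }
  have hG : ∀ q c, G q c = if lev c = i then q.2 c else 0 := fun q c => rfl
  refine ⟨P.map G, ?_, ?_⟩
  · have h1 := fr (LinearMap.fst (ZMod 2) W (Fin n → ZMod 2)) (V ⊓ Z (i + 1))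
    have h2 := fr G P
    have h3 : finrank (ZMod 2) ((V ⊓ Z (i + 1)).map
        (LinearMap.fst (ZMod 2) W (Fin n → ZMod 2))) ≤ finrank (ZMod 2) W :=
      Submodule.finrank_le _
    have h4 : finrank (ZMod 2) (P ⊓ LinearMap.ker G : Submodule (ZMod 2) _) ≤ f i := by
      refine Submodule.finrank_mono ?_
      rintro q ⟨⟨⟨hq1, hq2⟩, _⟩, hq3⟩
      refine ⟨hq1, ?_⟩
      show q ∈ Z i
      rw [hZ]
      intro c hc
      rcases Nat.lt_or_ge (i : ℕ) (lev c) with h | h
      · exact hq2 c h
      · have h5 : lev c = i := Fin.ext (by omega)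
        have h6 := congrFun (LinearMap.mem_ker.1 hq3) c
        rw [hG, if_pos h5] at h6
        exact h6
    have h5 : f (i + 1) = finrank (ZMod 2) (V ⊓ Z (i + 1) : Submodule (ZMod 2) _) := rfl
    have h6 : finrank (ZMod 2) P = finrank (ZMod 2)
      ((V ⊓ Z (i + 1)) ⊓ LinearMap.ker (LinearMap.fst (ZMod 2) W (Fin n → ZMod 2)) :
        Submodule (ZMod 2) _) := rfl
    omega
  · rintro y ⟨q, ⟨⟨hq1, hq2⟩, hq3⟩, rfl⟩
    have h3 : q.1 = 0 := hq3
    refine ⟨q.2, ?_, ?_, ?_⟩
    · have : ((0 : W), q.2) = q := Prod.ext h3.symm rfl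
      rw [this]
      exact hq1
    · intro c hc
      exact hq2 c hc
    · intro c
      exact hG q c

end Pool.Agent.RF
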