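import Mathlib
import Pool.Agent.Helper74.RF.Basic
import Pool.Agent.Helper74.RF.Count
import Pool.Agent.Helper74.RF.Choice
import Pool.Agent.Helper74.RF.Level

/-!
# RF-8: the step lemma (one more colour)

Proof. `W = 𝔽₂^k`, `E = W × 𝔽₂ⁿ`. The first `s` sets are the preimages `W × A j` of the given sets.
For `x : Fin n → ZMod 2`, `x ≠ 0`, let `top x = max {lev c | x c ≠ 0}`, and for `i : Fin t` let
`x|_i` be the vector `c ↦ if lev c = i then x c else 0`. For a choice
`ω (i, y) ∈ L i` (`i : Fin t`, `y : Fin n → ZMod 2`) put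
`B = {(ω (top x, x|_{top x}), x) | x ≠ 0}`.

`B` is sum-free for every `ω`: let `x, y, x + y ≠ 0` and
`ω(x) + ω(y) = ω(x + y)` where `ω(x)` is short for `ω (top x, x|_{top x})`. If `top x < top y`
then `top (x + y) = top y =: i` and `(x + y)|_i = y|_i`, so `ω(x + y) = ω(y)` and `ω(x) = 0`, but
`0 ∉ L i`. The same if `top y < top x`. Let `top x = top y = i`. If `x|_i = y|_i` then
`ω(x) = ω(y)`, so `ω(x + y) = 0`, contradiction. If `x|_i ≠ y|_i` then `top (x + y) = i` and
`ω(x), ω(y), ω(x+y)` all lie in `L i`, which is sum-free, contradiction.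

Let `V ≤ E` have dimension `d` and suppose that no `W × A j` meets `V`. The projection of `V` to
`𝔽₂ⁿ` is not met by the `A j`, so it has dimension `< d'` and `{w | (w, 0) ∈ V}` has dimension
`≥ d - d' + 1 ≥ u`; let `U` be a subspace of it of dimension exactly `u`. Let
`bad = {i | ∀ v ∈ U, v ∉ L i}`, `|bad| < β`. By `exists_level` (with `B = bad`) there are
`i ∉ bad` and `F`, `dim F ≥ D - k`, such that every `y ∈ F` is `x|_i` for some `x` with
`(0, x) ∈ V` and `x c = 0` for `lev c > i`. Fix `w ∈ U ∩ L i`, so `(w, 0) ∈ V`. If `y ∈ F`, `y ≠ 0`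
and `ω (i, y) = w` then for the corresponding `x` we have `x ≠ 0`, `top x = i`, `x|_i = y`, so
`(w, x) = (w, 0) + (0, x) ∈ V ∩ B`. The set of trials `{(i, y) | y ∈ F, y ≠ 0}` has
`≥ 2^(D-k) - 1 ≥ 2^k * (d (n + k))` elements and at each of them the good value `w` is one of
`|L i| ≤ 2^k`. So `random_choice` applies with `m = d (n + k)` (`≥ 1`: `D ≥ 1`, `t ≥ 1` so
`d ≥ 1`; `n + k ≥ 1`: if `n + k = 0` then there is no subspace of dimension `d ≥ 1` and the theorem
is trivial), `k V = k`, `Ω (i, y) = L i`, `ι` = the `d`-dimensional subspaces missed by the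
`W × A j` (at most `2^(d (n + k))`, `card_subspaces_le`).
Finally use `avOn_iff`.
-/

set_option autoImplicit false

namespace Pool.Agent.RF

open Module

namespace StepAux

variable {n t k : ℕ}

/-- `i` is the highest level of `x`. -/
def IsTop (lev : Fin n → Fin t) (i : Fin t) (x : Fin n → ZMod 2) : Prop :=
  (∃ c, lev c = i ∧ x c ≠ 0) ∧ ∀ c, i < lev c → x c = 0

/-- The part of `x` of level `i`. -/
def res (lev : Fin n → Fin t) (i : Fin t) (x : Fin n → ZMod 2) : Fin n → ZMod 2 :=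
  fun c => if lev c = i then x c else 0

/-- The random set. -/
def Bset (lev : Fin n → Fin t) (L : Fin t → Set (Fin k → ZMod 2))
    (ω : ∀ p : Fin t × (Fin n → ZMod 2), L p.1) :
    Set ((Fin k → ZMod 2) × (Fin n → ZMod 2)) :=
  {q | ∃ i, IsTop lev i q.2 ∧ q.1 = (ω (i, res lev i q.2) : Fin k → ZMod 2)}

theorem zmod2_add_self (a : ZMod 2) : a + a = 0 := CharTwo.add_self_eq_zero a

theorem sumFree_Bset_aux (lev : Fin n → Fin t) (L : Fin t → Set (Fin k → ZMod 2))
    (hL1 : ∀ i, SumFree (L i)) (ω : ∀ p : Fin t × (Fin n → ZMod 2), L p.1)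
    {w₁ w₂ : Fin k → ZMod 2} {x₁ x₂ : Fin n → ZMod 2} {i j l : Fin t} (hij : i < j)
    (h1 : IsTop lev i x₁) (h2 : IsTop lev j x₂) (h3 : IsTop lev l (x₁ + x₂))
    (e1 : w₁ = ω (i, res lev i x₁)) (e2 : w₂ = ω (j, res lev j x₂))
    (e3 : w₁ + w₂ = ω (l, res lev l (x₁ + x₂))) : False := by
  have hlj : l = j := by
    obtain ⟨c, hc, hc'⟩ := h2.1
    have hx1 : x₁ c = 0 := h1.2 c (by rw [hc]; exact hij)
    have hle : j ≤ l := by
      by_contra hlt
      push Not at hlt
      have := h3.2 c (by rw [hc]; exact hlt)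
      rw [Pi.add_apply, hx1, zero_add] at this
      exact hc' this
    obtain ⟨c', hc1, hc2⟩ := h3.1
    by_contra hne
    have hjl : j < l := lt_of_le_of_ne hle (Ne.symm hne)
    apply hc2
    rw [Pi.add_apply, h1.2 c' (by rw [hc1]; exact hij.trans hjl),
      h2.2 c' (by rw [hc1]; exact hjl), add_zero]
  subst hlj
  have hres : res lev l (x₁ + x₂) = res lev l x₂ := by
    funext c
    unfold res
    split_ifs with h
    · rw [Pi.add_apply, h1.2 c (by rw [h]; exact hij), zero_add]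
    · rfl
  rw [hres, ← e2] at e3
  have hw : w₁ = 0 := by
    have := congrArg (· - w₂) e3
    simpa using this
  apply (hL1 i).zero_notMem
  rw [← hw, e1]
  exact (ω (i, res lev i x₁)).2

theorem sumFree_Bset (lev : Fin n → Fin t) (L : Fin t → Set (Fin k → ZMod 2))
    (hL1 : ∀ i, SumFree (L i)) (ω : ∀ p : Fin t × (Fin n → ZMod 2), L p.1) :
    SumFree (Bset lev L ω) := by
  rintro ⟨w₁, x₁⟩ ⟨i, h1, e1⟩ ⟨w₂, x₂⟩ ⟨j, h2, e2⟩ ⟨l, h3, e3⟩
  simp only [Prod.mk_add_mk] at h1 h2 h3 e1 e2 e3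
  rcases lt_trichotomy i j with hij | hij | hij
  · exact sumFree_Bset_aux lev L hL1 ω hij h1 h2 h3 e1 e2 e3
  · subst hij
    have hli : l ≤ i := by
      by_contra hlt
      push Not at hlt
      obtain ⟨c, hc, hc'⟩ := h3.1
      apply hc'
      rw [Pi.add_apply, h1.2 c (by rw [hc]; exact hlt), h2.2 c (by rw [hc]; exact hlt), add_zero]
    rcases hli.lt_or_eq with hlt | heq
    · have hres : res lev i x₁ = res lev i x₂ := by
        funext c
        unfold res
        split_ifs with h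
        · have := h3.2 c (by rw [h]; exact hlt)
          rw [Pi.add_apply] at this
          exact CharTwo.add_eq_zero.1 this
        · rfl
      rw [hres, ← e2] at e1
      have hw2 : w₂ + w₂ = 0 := by
        funext c
        exact zmod2_add_self _
      rw [e1, hw2] at e3
      apply (hL1 l).zero_notMem
      rw [e3]
      exact (ω (l, res lev l (x₁ + x₂))).2
    · subst heq
      refine hL1 l w₁ ?_ w₂ ?_ ?_
      · rw [e1]; exact (ω (l, res lev l x₁)).2
      · rw [e2]; exact (ω (l, res lev l x₂)).2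
      · rw [e3]; exact (ω (l, res lev l (x₁ + x₂))).2
  · refine sumFree_Bset_aux lev L hL1 ω hij h2 h1 (l := l) ?_ e2 e1 ?_
    · rwa [add_comm]
    · rw [add_comm w₂, add_comm x₂]
      exact e3

theorem exists_sub {V : Type*} [AddCommGroup V] [Module (ZMod 2) V] [FiniteDimensional (ZMod 2) V]
    (P : Submodule (ZMod 2) V) {m : ℕ} (hm : m ≤ finrank (ZMod 2) P) :
    ∃ P' : Submodule (ZMod 2) V, P' ≤ P ∧ finrank (ZMod 2) P' = m := by
  let b := Module.finBasis (ZMod 2) P
  have hli : LinearIndependent (ZMod 2) (fun i : Fin m => ((b (Fin.castLE hm i) : P) : V)) :=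
    ((b.linearIndependent.comp (Fin.castLE hm) (Fin.castLE_injective hm)).map'
      P.subtype P.ker_subtype)
  refine ⟨Submodule.span (ZMod 2)
    (Set.range (fun i : Fin m => ((b (Fin.castLE hm i) : P) : V))), ?_, ?_⟩
  · rw [Submodule.span_le]
    rintro _ ⟨i, rfl⟩
    exact (b (Fin.castLE hm i)).2
  · rw [finrank_span_eq_card hli, Fintype.card_fin]

/-- The data attached to a subspace missed by the pulled back sets. -/
theorem exists_data {s d d' u e β D : ℕ} {A : Fin s → Set (Fin n → ZMod 2)}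
    (hA : ∀ V : Submodule (ZMod 2) (Fin n → ZMod 2), finrank (ZMod 2) V = d' →
      ∃ i, ∃ v ∈ V, v ∈ A i) (hdu : d' + u ≤ d)
    (lev : Fin n → Fin t)
    (hlev : ∀ i, (Finset.univ.filter (fun c => lev c = i)).card ≤ e)
    (L : Fin t → Set (Fin k → ZMod 2))
    (hL3 : ∀ U : Submodule (ZMod 2) (Fin k → ZMod 2), finrank (ZMod 2) U = u →
      Set.ncard {i : Fin t | ∀ v ∈ U, v ∉ L i} < β)
    (hD : k + β * e + t * D ≤ d) (ht : 1 ≤ t) (hkD : k < D)
    (V : Submodule (ZMod 2) ((Fin k → ZMod 2) × (Fin n → ZMod 2)))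
    (hV : finrank (ZMod 2) V = d) (hVA : ∀ j, ∀ v ∈ V, v.2 ∉ A j) :
    ∃ i : Fin t, ∃ w ∈ L i, ((w, 0) : (Fin k → ZMod 2) × (Fin n → ZMod 2)) ∈ V ∧
      ∃ F : Submodule (ZMod 2) (Fin n → ZMod 2), D ≤ finrank (ZMod 2) F + k ∧
      ∀ y ∈ F, ∃ x : Fin n → ZMod 2, ((0 : Fin k → ZMod 2), x) ∈ V ∧
        (∀ c, i < lev c → x c = 0) ∧ ∀ c, y c = if lev c = i then x c else 0 := by
  set K : Submodule (ZMod 2) (Fin k → ZMod 2) :=
    V.comap (LinearMap.inl (ZMod 2) (Fin k → ZMod 2) (Fin n → ZMod 2)) with hK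
  set P : Submodule (ZMod 2) (Fin n → ZMod 2) :=
    V.map (LinearMap.snd (ZMod 2) (Fin k → ZMod 2) (Fin n → ZMod 2)) with hP
  have hPlt : finrank (ZMod 2) P < d' := by
    by_contra hge
    push Not at hge
    obtain ⟨P', hP'1, hP'2⟩ := exists_sub P hge
    obtain ⟨j, v, hv, hvA⟩ := hA P' hP'2
    obtain ⟨q, hq, hqv⟩ := hP'1 hv
    apply hVA j q hq
    rw [LinearMap.snd_apply] at hqv
    rw [hqv]
    exact hvA
  have hsum : finrank (ZMod 2) K + finrank (ZMod 2) P = d := by
    rw [← hV]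
    set f := (LinearMap.snd (ZMod 2) (Fin k → ZMod 2) (Fin n → ZMod 2)).domRestrict V with hf
    have h1 := LinearMap.finrank_range_add_finrank_ker f
    have h2 : LinearMap.range f = P := by
      rw [hf, LinearMap.range_domRestrict]
    have h3 : finrank (ZMod 2) (LinearMap.ker f) = finrank (ZMod 2) K := by
      refine LinearEquiv.finrank_eq ?_
      refine
        { toFun := fun q => ⟨q.1.1.1, ?_⟩
          invFun := fun w => ⟨⟨(w.1, 0), ?_⟩, ?_⟩
          map_add' := fun _ _ => rfl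
          map_smul' := fun _ _ => rfl
          left_inv := ?_
          right_inv := fun _ => rfl }
      · rw [hK, Submodule.mem_comap, LinearMap.inl_apply]
        have h4 : q.1.1.2 = 0 := q.2
        have h5 : ((q.1.1.1, 0) : (Fin k → ZMod 2) × (Fin n → ZMod 2)) = q.1.1 := by
          rw [← h4]
        rw [h5]
        exact q.1.2
      · exact Submodule.mem_comap.1 (show (w : Fin k → ZMod 2) ∈ V.comap
          (LinearMap.inl (ZMod 2) (Fin k → ZMod 2) (Fin n → ZMod 2)) from w.2)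
      · rfl
      · rintro ⟨⟨⟨a, b⟩, hab⟩, hq⟩
        have h4 : b = 0 := hq
        subst h4
        rfl
    rw [← h3, ← h2, ← h1]
    ring
  obtain ⟨U, hUK, hU⟩ := exists_sub K (show u ≤ finrank (ZMod 2) K by omega)
  have hfr : finrank (ZMod 2) (Fin k → ZMod 2) = k := by simp
  obtain ⟨i, hi, F, hF1, hF2⟩ := exists_level V lev hlev {i : Fin t | ∀ v ∈ U, v ∉ L i}
    (hL3 U hU) (by rw [hfr, hV]; exact hD) ht (by omega : 1 ≤ D)
  rw [Set.mem_ofPred_eq] at hi
  push Not at hi
  obtain ⟨w, hwU, hwL⟩ := hi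
  refine ⟨i, w, hwL, ?_, F, ?_, hF2⟩
  · have := hUK hwU
    rwa [hK, Submodule.mem_comap, LinearMap.inl_apply] at this
  · rwa [hfr] at hF1

end StepAux

theorem av_step {s d d' u k n t e β D : ℕ} (hA : Av s d' n) (hdu : d' + u ≤ d)
    (lev : Fin n → Fin t)
    (hlev : ∀ i, (Finset.univ.filter (fun c => lev c = i)).card ≤ e)
    (L : Fin t → Set (Fin k → ZMod 2)) (hL1 : ∀ i, SumFree (L i)) (hL2 : ∀ i, (L i).Nonempty)
    (hL3 : ∀ U : Submodule (ZMod 2) (Fin k → ZMod 2), finrank (ZMod 2) U = u →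
      Set.ncard {i : Fin t | ∀ v ∈ U, v ∉ L i} < β)
    (hD : k + β * e + t * D ≤ d) (ht : 1 ≤ t) (hkD : k < D)
    (hbig : 2 ^ k * (d * (n + k)) + 1 ≤ 2 ^ (D - k)) : Av (s + 1) d (n + k) := by
  classical
  have hd1 : 1 ≤ d := by
    have : 1 * 1 ≤ t * D := Nat.mul_le_mul ht (by omega)
    omega
  rcases Nat.lt_or_ge (n + k) d with hlt | hge
  · exact av_of_lt hlt
  obtain ⟨A, hA1, hA2⟩ := hA
  have hfrE : finrank (ZMod 2) ((Fin k → ZMod 2) × (Fin n → ZMod 2)) = n + k := by
    simp [add_comm]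
  rw [← hfrE, ← avOn_iff]
  let ι := {V : Submodule (ZMod 2) ((Fin k → ZMod 2) × (Fin n → ZMod 2)) //
    finrank (ZMod 2) V = d ∧ ∀ j, ∀ v ∈ V, v.2 ∉ A j}
  have hdata : ∀ V : ι, ∃ i : Fin t, ∃ w ∈ L i,
      ((w, 0) : (Fin k → ZMod 2) × (Fin n → ZMod 2)) ∈ V.1 ∧
      ∃ F : Submodule (ZMod 2) (Fin n → ZMod 2), D ≤ finrank (ZMod 2) F + k ∧
      ∀ y ∈ F, ∃ x : Fin n → ZMod 2, ((0 : Fin k → ZMod 2), x) ∈ V.1 ∧
        (∀ c, i < lev c → x c = 0) ∧ ∀ c, y c = if lev c = i then x c else 0 := fun V =>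
    StepAux.exists_data hA2 hdu lev hlev L hL3 hD ht hkD V.1 V.2.1 V.2.2
  choose i w hwL hwV F hF1 hF2 using hdata
  have : ∀ p : Fin t × (Fin n → ZMod 2), Nonempty (L p.1) := fun p => (hL2 p.1).to_subtype
  have hι : Nat.card ι ≤ 2 ^ (d * (n + k)) := by
    rw [← hfrE]
    refine le_trans ?_ (card_subspaces_le _ d)
    refine Nat.card_le_card_of_injective
      (fun V : ι => (⟨V.1, V.2.1⟩ : {V : Submodule (ZMod 2) ((Fin k → ZMod 2) ×
        (Fin n → ZMod 2)) // finrank (ZMod 2) V = d})) ?_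
    intro V V' h
    exact Subtype.ext (Subtype.mk.inj h)
  obtain ⟨ω, hω⟩ := random_choice (X := Fin t × (Fin n → ZMod 2)) (Ω := fun p => L p.1)
    (d * (n + k)) (Nat.mul_pos hd1 (by omega)) hι
    (fun V => (Finset.univ.filter (fun y => y ∈ F V ∧ y ≠ 0)).image (fun y => (i V, y)))
    (fun V p => {z | (z : Fin k → ZMod 2) = w V}) (fun _ => k) (by
      intro V
      rw [Finset.card_image_of_injective _ (fun a b h => (Prod.mk.inj h).2)]
      have h1 : (Finset.univ.filter (fun y => y ∈ F V ∧ y ≠ 0)).card + 1 =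
          Nat.card (F V) := by
        have h2 : (Finset.univ.filter (fun y => y ∈ F V)).card = Nat.card (F V) := by
          rw [Nat.card_eq_fintype_card, Fintype.card_subtype]
        rw [← h2, ← Finset.card_erase_add_one
          (show (0 : Fin n → ZMod 2) ∈ Finset.univ.filter (fun y => y ∈ F V) by simp)]
        congr 2
        ext y
        simp [and_comm]
      have h3 : Nat.card (F V) = 2 ^ finrank (ZMod 2) (F V) := by
        rw [Nat.card_eq_fintype_card, Module.card_eq_pow_finrank (K := ZMod 2), ZMod.card]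
      have h4 : 2 ^ (D - k) ≤ 2 ^ finrank (ZMod 2) (F V) :=
        Nat.pow_le_pow_right (by norm_num) (by have := hF1 V; omega)
      omega) (by
      intro V p hp
      rw [Finset.mem_image] at hp
      obtain ⟨y, hy, rfl⟩ := hp
      have h1 : ({z : L (i V) | (z : Fin k → ZMod 2) = w V} : Set (L (i V))) =
          {⟨w V, hwL V⟩} := by
        ext z
        simp [Subtype.ext_iff]
      have h2 : ({z : L ((i V, y) : Fin t × (Fin n → ZMod 2)).1 |
          (z : Fin k → ZMod 2) = w V}).ncard = 1 := by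
        rw [Set.ncard_eq_one]
        exact ⟨_, h1⟩
      rw [h2, mul_one]
      calc Nat.card (L (i V)) ≤ Nat.card (Fin k → ZMod 2) :=
            Nat.card_le_card_of_injective _ Subtype.val_injective
        _ = 2 ^ k := by simp)
  refine ⟨Fin.cons (StepAux.Bset lev L ω) (fun j => Prod.snd ⁻¹' (A j)), ?_, ?_⟩
  · intro j
    refine Fin.cases ?_ (fun j => ?_) j
    · exact StepAux.sumFree_Bset lev L hL1 ω
    · intro x hx y hy hxy
      exact hA1 j x.2 hx y.2 hy hxy
  · intro V hV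
    by_cases hVA : ∀ j, ∀ v ∈ V, v.2 ∉ A j
    · refine ⟨0, ?_⟩
      obtain ⟨p, hp, hωp⟩ := hω ⟨V, hV, hVA⟩
      rw [Finset.mem_image] at hp
      obtain ⟨y, hy, rfl⟩ := hp
      rw [Finset.mem_filter] at hy
      obtain ⟨-, hyF, hy0⟩ := hy
      obtain ⟨x, hxV, hx1, hx2⟩ := hF2 ⟨V, hV, hVA⟩ y hyF
      refine ⟨(w ⟨V, hV, hVA⟩, x), ?_, i ⟨V, hV, hVA⟩, ⟨?_, hx1⟩, ?_⟩
      · have := V.add_mem (hwV ⟨V, hV, hVA⟩) hxV
        simpa using this
      · by_contra hne
        push Not at hne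
        apply hy0
        funext c
        rw [hx2 c]
        split_ifs with h
        · exact hne c h
        · rfl
      · have hres : StepAux.res lev (i ⟨V, hV, hVA⟩) x = y := by
          funext c
          rw [hx2 c]
          rfl
        rw [hres]
        exact hωp.symm
    · push Not at hVA
      obtain ⟨j, v, hv, hvA⟩ := hVA
      exact ⟨j.succ, v, hv, hvA⟩

end Pool.Agent.RF
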