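import Mathlib
import Pool.Agent.Helper74.RF.Family
import Pool.Agent.Helper74.RF.Step

/-!
# RF-9: the step lemma with explicit parameters, and its asymptotic form

`av_gain`: `exists_family` and `av_step` with `u = 12μ`, `k = 12Cμ`, `β = 48C`, and the level
function `lev c = c / e` (if `e = 0` then `n = 0`; `n ≤ t e`).

`av_asym`: given `K, C` (we may assume both `≥ 1`) put `C' = 2C`, `t = 400 C' K`, `M = 16 t C'`.
For large `d` put `μ = (d / M) / 12`, `e = n / t + 1`, `D = d / (2 t)`. Then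
* `12 μ ≤ d / M`, so `(d - d/M) + 12 μ ≤ d`;
* `12 C' μ = 24 C μ ≥ C (d / M)` once `d / M ≥ 24`, so `av_anti` gives the claim from
  `Av (s + 1) d (n + 12 C' μ)`;
* `12 C' μ ≤ C' d / M ≤ d / 8`; `48 C' e ≤ 48 C' (K d / t + 1) ≤ 0.12 d + 48 C' ≤ d / 4` for large
  `d`; `t D ≤ d / 2`;
* `D ≥ d / (2t) - 1` and `12 C' μ ≤ d / (16 t)`, and `d (n + 12 C' μ) ≤ (K + 1) d²`, so `hbig`
  holds for large `d` (`2 * 12 C' μ + log₂ ((K+1) d² + 1) ≤ d / (8t) + O(log d) ≤ D`);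
* `t ≤ 2^(2μ²)` for large `d`.
-/

set_option autoImplicit false

namespace Pool.Agent.RF

open Module

theorem av_gain {s d d' n μ C t e D : ℕ} (hA : Av s d' n) (hdu : d' + 12 * μ ≤ d) (hμ : 1 ≤ μ)
    (hC : 1 ≤ C) (ht : 1 ≤ t) (ht' : t ≤ 2 ^ (2 * μ ^ 2)) (hn : n ≤ t * e)
    (hD : 12 * C * μ + 48 * C * e + t * D ≤ d) (hkD : 12 * C * μ < D)
    (hbig : 2 ^ (12 * C * μ) * (d * (n + 12 * C * μ)) + 1 ≤ 2 ^ (D - 12 * C * μ)) :
    Av (s + 1) d (n + 12 * C * μ) := by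
  obtain ⟨L, hL1, hL2, hL3⟩ := exists_family μ C t hμ hC ht'
  have hlt : ∀ c : Fin n, (c : ℕ) / e < t := by
    intro c
    apply Nat.div_lt_of_lt_mul
    have := c.2
    rw [Nat.mul_comm]
    omega
  refine av_step (u := 12 * μ) (k := 12 * C * μ) (β := 48 * C) (e := e) (D := D) (t := t) hA hdu
    (fun c => ⟨(c : ℕ) / e, hlt c⟩) ?_ L hL1 hL2 hL3 hD ht hkD hbig
  intro i
  have hcard : (Finset.Ico ((i : ℕ) * e) ((i : ℕ) * e + e)).card = e := by
    rw [Nat.card_Ico]; omega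
  refine le_trans (Finset.card_le_card_of_injOn (t := Finset.Ico ((i : ℕ) * e) ((i : ℕ) * e + e))
    (fun c : Fin n => (c : ℕ)) ?_ ?_) hcard.le
  · intro c hc
    have hc' : (⟨(c : ℕ) / e, hlt c⟩ : Fin t) = i := by
      simpa using hc
    have h1 : (c : ℕ) / e = i := by
      rw [← hc']
    have he : 0 < e := by
      rcases Nat.eq_zero_or_pos e with h0 | h0
      · exfalso
        have := c.2
        rw [h0] at hn
        omega
      · exact h0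
    have h2 := Nat.div_add_mod (c : ℕ) e
    have h3 := Nat.mod_lt (c : ℕ) he
    rw [h1] at h2
    have h4 : e * (i : ℕ) = (i : ℕ) * e := Nat.mul_comm _ _
    simp only [Finset.coe_Ico, Set.mem_Ico]
    omega
  · intro a _ b _ hab
    exact Fin.ext hab

theorem gain_exp_beats (A B : ℕ) : ∃ m₀ : ℕ, ∀ m : ℕ, m₀ ≤ m → A * (B * (m + 1)) ^ 2 + 1 ≤ 2 ^ m := by
  have h1 : Filter.Tendsto (fun m : ℕ => ((m : ℝ)) ^ 2 / 2 ^ m) Filter.atTop (nhds 0) :=
    tendsto_pow_const_div_const_pow_of_one_lt 2 (by norm_num)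
  have hpos : (0 : ℝ) < 1 / (4 * (A : ℝ) * (B : ℝ) ^ 2 + 1) := by positivity
  have h2 := (h1.eventually (gt_mem_nhds hpos))
  obtain ⟨m₀, hm₀⟩ := Filter.eventually_atTop.1 h2
  refine ⟨max m₀ 1, fun m hm => ?_⟩
  have h3 := hm₀ m (le_trans (le_max_left _ _) hm)
  have hm1 : 1 ≤ m := le_trans (le_max_right _ _) hm
  have h4 : (0 : ℝ) < 2 ^ m := by positivity
  rw [div_lt_div_iff₀ h4 (by positivity)] at h3
  have h5 : (1 : ℝ) ≤ m := by exact_mod_cast hm1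
  have h6 : (A : ℝ) * ((B : ℝ) * ((m : ℝ) + 1)) ^ 2 + 1 ≤ 2 ^ m := by
    have h7 : ((m : ℝ) + 1) ^ 2 ≤ 4 * (m : ℝ) ^ 2 := by nlinarith
    have h8 : (A : ℝ) * ((B : ℝ) * ((m : ℝ) + 1)) ^ 2 ≤ 4 * (A : ℝ) * (B : ℝ) ^ 2 * (m : ℝ) ^ 2 := by
      have h9 : (0 : ℝ) ≤ (A : ℝ) * (B : ℝ) ^ 2 := by positivity
      calc (A : ℝ) * ((B : ℝ) * ((m : ℝ) + 1)) ^ 2 = (A : ℝ) * (B : ℝ) ^ 2 * ((m : ℝ) + 1) ^ 2 := by ring
        _ ≤ (A : ℝ) * (B : ℝ) ^ 2 * (4 * (m : ℝ) ^ 2) := mul_le_mul_of_nonneg_left h7 h9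
        _ = 4 * (A : ℝ) * (B : ℝ) ^ 2 * (m : ℝ) ^ 2 := by ring
    have h10 : (1 : ℝ) ≤ (m : ℝ) ^ 2 := by nlinarith
    have h11 : (4 * (A : ℝ) * (B : ℝ) ^ 2 * (m : ℝ) ^ 2) + (m : ℝ) ^ 2 < 2 ^ m := by
      nlinarith
    linarith
  exact_mod_cast h6

theorem av_asym (K C : ℕ) : ∃ M D₀ : ℕ, 2 ≤ M ∧ ∀ s d n : ℕ, D₀ ≤ d → n ≤ K * d →
    Av s (d - d / M) n → Av (s + 1) d (n + C * (d / M)) := by
  obtain ⟨C', hC'⟩ : ∃ C', C' = 2 * (C + 1) := ⟨_, rfl⟩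
  obtain ⟨t, htdef⟩ : ∃ t, t = 400 * C' * (K + 1) := ⟨_, rfl⟩
  obtain ⟨M, hMdef⟩ : ∃ M, M = 16 * t * C' := ⟨_, rfl⟩
  obtain ⟨m₀, hm₀⟩ := gain_exp_beats (K + 1) (4 * t)
  have hC1 : 1 ≤ C' := by omega
  have ht1 : 1 ≤ t := by
    rw [htdef]; exact Nat.one_le_iff_ne_zero.2 (by positivity)
  have hM1 : 1 ≤ M := by
    rw [hMdef]; exact Nat.one_le_iff_ne_zero.2 (by positivity)
  have hM2 : 2 ≤ M := by
    have h1 : 1 ≤ t * C' := Nat.one_le_iff_ne_zero.2 (by positivity)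
    rw [hMdef, Nat.mul_assoc]
    omega
  refine ⟨M, (24 * (t + 1) + 12) * M + 4 * t * (m₀ + 1) + 192 * C', hM2, ?_⟩
  intro s d n hd hn hA
  obtain ⟨q, hq⟩ : ∃ q, q = d / M := ⟨_, rfl⟩
  obtain ⟨μ, hμ⟩ : ∃ μ, μ = q / 12 := ⟨_, rfl⟩
  obtain ⟨e, he⟩ : ∃ e, e = n / t + 1 := ⟨_, rfl⟩
  obtain ⟨D, hDdef⟩ : ∃ D, D = d / (2 * t) := ⟨_, rfl⟩
  obtain ⟨m, hm⟩ : ∃ m, m = d / (4 * t) := ⟨_, rfl⟩
  rw [← hq] at hA ⊢
  -- bounds on `q`
  have hq1 : q * M ≤ d := by rw [hq]; exact Nat.div_mul_le_self _ _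
  have hq2 : 24 * (t + 1) + 12 ≤ q := by
    rw [hq, Nat.le_div_iff_mul_le hM1]
    omega
  have hμ1 : 12 * μ ≤ q := by omega
  have hμ2 : q < 12 * μ + 12 := by omega
  have hμt : t + 1 ≤ μ := by omega
  have hqd : q ≤ d := by rw [hq]; exact Nat.div_le_self _ _
  -- bounds on `k`
  have hk : 12 * C' * μ ≤ C' * q := by
    calc 12 * C' * μ = C' * (12 * μ) := by ring
      _ ≤ C' * q := Nat.mul_le_mul_left _ hμ1
  obtain ⟨k, hkdef⟩ : ∃ k, k = 12 * C' * μ := ⟨_, rfl⟩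
  have hk1 : k * (16 * t) ≤ d := by
    calc k * (16 * t) ≤ (C' * q) * (16 * t) := Nat.mul_le_mul_right _ (by rw [hkdef]; exact hk)
      _ = q * M := by rw [hMdef]; ring
      _ ≤ d := hq1
  have hkd : k ≤ d := by
    calc k ≤ k * (16 * t) := Nat.le_mul_of_pos_right _ (by omega)
      _ ≤ d := hk1
  have hk16 : 16 * k ≤ d := by
    calc 16 * k ≤ 16 * k * t := Nat.le_mul_of_pos_right _ ht1
      _ = k * (16 * t) := by ring
      _ ≤ d := hk1
  -- bounds on `m` and `D`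
  have hm1 : m * (4 * t) ≤ d := by rw [hm]; exact Nat.div_mul_le_self _ _
  have hm2 : d < (m + 1) * (4 * t) := by
    have h1 := Nat.div_add_mod d (4 * t)
    have h2 := Nat.mod_lt d (show 0 < 4 * t by omega)
    rw [← hm] at h1
    nlinarith
  have hm3 : m₀ + 1 ≤ m := by
    rw [hm, Nat.le_div_iff_mul_le (by omega)]
    calc (m₀ + 1) * (4 * t) = 4 * t * (m₀ + 1) := by ring
      _ ≤ d := by omega
  have hD1 : m + 2 * k ≤ D := by
    rw [hDdef, Nat.le_div_iff_mul_le (by omega)]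
    nlinarith
  have hD2 : D * (2 * t) ≤ d := by rw [hDdef]; exact Nat.div_mul_le_self _ _
  -- the bound on `e`
  have he1 : 400 * (C' * (n / t)) ≤ d := by
    have h1 : n / t * t ≤ n := Nat.div_mul_le_self _ _
    have h2 : n / t * (400 * C' * (K + 1)) ≤ K * d := by
      rw [← htdef]; exact h1.trans hn
    have h3 : (400 * (C' * (n / t))) * (K + 1) ≤ d * (K + 1) := by
      calc (400 * (C' * (n / t))) * (K + 1) = n / t * (400 * C' * (K + 1)) := by ring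
        _ ≤ K * d := h2
        _ ≤ d * (K + 1) := by nlinarith
    exact Nat.le_of_mul_le_mul_right h3 (by omega)
  have hfin : Av (s + 1) d (n + 12 * C' * μ) := by
    refine av_gain (d' := d - q) (t := t) (e := e) (D := D) hA (by omega) (by omega) hC1 ht1
      ?_ ?_ ?_ ?_ ?_
    · calc t ≤ 2 ^ t := Nat.lt_two_pow_self.le
        _ ≤ 2 ^ (2 * μ ^ 2) := by
          apply Nat.pow_le_pow_right (by norm_num)
          nlinarith
    · have h1 := Nat.div_add_mod n t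
      have h2 := Nat.mod_lt n ht1
      rw [he]
      nlinarith
    · rw [← hkdef, he]
      have h1 : 48 * C' * (n / t + 1) = 48 * (C' * (n / t)) + 48 * C' := by ring
      have h2 : 2 * (t * D) ≤ d := by
        calc 2 * (t * D) = D * (2 * t) := by ring
          _ ≤ d := hD2
      rw [h1]
      have h3 : 192 * C' ≤ d := by omega
      omega
    · rw [← hkdef]; omega
    · rw [← hkdef]
      have h1 : m ≤ D - k - k := by omega
      have h2 : d * (n + k) ≤ (K + 1) * (4 * t * (m + 1)) ^ 2 := by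
        have h3 : n + k ≤ (K + 1) * d := by nlinarith
        have h4 : d ≤ 4 * t * (m + 1) := by
          calc d ≤ (m + 1) * (4 * t) := hm2.le
            _ = 4 * t * (m + 1) := by ring
        calc d * (n + k) ≤ d * ((K + 1) * d) := Nat.mul_le_mul_left _ h3
          _ = (K + 1) * d ^ 2 := by ring
          _ ≤ (K + 1) * (4 * t * (m + 1)) ^ 2 :=
            Nat.mul_le_mul_left _ (Nat.pow_le_pow_left h4 2)
      have h5 := hm₀ m (by omega)
      have h6 : d * (n + k) + 1 ≤ 2 ^ m := by omega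
      have h7 : (1 : ℕ) ≤ 2 ^ k := Nat.one_le_two_pow
      calc 2 ^ k * (d * (n + k)) + 1 ≤ 2 ^ k * (d * (n + k)) + 2 ^ k := by omega
        _ = 2 ^ k * (d * (n + k) + 1) := by ring
        _ ≤ 2 ^ k * 2 ^ m := Nat.mul_le_mul_left _ h6
        _ = 2 ^ (k + m) := by rw [pow_add]
        _ ≤ 2 ^ (D - k) := Nat.pow_le_pow_right (by norm_num) (by omega)
  refine av_anti hfin ?_
  have h1 : C * q ≤ 12 * C' * μ := by
    have h2 : q ≤ 24 * μ := by omega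
    rw [hC']
    nlinarith
  omega

end Pool.Agent.RF
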