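import Mathlib
import Pool.Agent.Helper22.SR.Lower
import Pool.Agent.Helper74.RF.Gain
import Pool.Agent.Helper74.RF.Comp
import Pool.Agent.Helper74.RF.Fekete

/-!
# The dichotomy for three colours
-/

set_option autoImplicit false

namespace Pool.Agent.RF

open Filter Topology Pool.Agent.Helper22.SR

theorem av_iff {s d n : ℕ} : Av s d n ↔ n < ramseyF2 (s + 1) d :=
  (lt_ramsey_iff (exists_arrows _ _)).symm

/-- The largest `n` such that `Av s d n`. -/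
noncomputable def fr (s d : ℕ) : ℕ := ramseyF2 (s + 1) d - 1

theorem le_fr {s d n : ℕ} (hd : 1 ≤ d) : n ≤ fr s d ↔ Av s d n := by
  rw [av_iff, fr]
  have := ramsey_pos s d hd
  omega

theorem ramsey_eq {s d : ℕ} (hd : 1 ≤ d) : ramseyF2 (s + 1) d = fr s d + 1 := by
  rw [fr]
  have := ramsey_pos s d hd
  omega

theorem fr_zero (s : ℕ) : fr s 0 = 0 := by
  have h : ¬ Av s 0 0 := not_av_zero
  rw [av_iff] at h
  rw [fr]
  omega

theorem fr_mono (s : ℕ) : Monotone (fr s) := by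
  intro d d' hd
  rcases Nat.eq_zero_or_pos d with h0 | h0
  · subst h0
    rw [fr_zero]
    exact Nat.zero_le _
  · exact (le_fr (by omega)).mpr (av_mono_d ((le_fr h0).mp le_rfl) hd)

theorem fr_sup (d₁ d₂ d n₁ n₂ : ℕ) (h1 : 1 ≤ d₁) (h2 : 1 ≤ d₂) (hn₁ : n₁ ≤ fr 1 d₁)
    (hn₂ : n₂ ≤ fr 1 d₂) (hd : d₁ + d₂ ≤ d) (h : d * (n₁ + n₂) ≤ 2 ^ (d - d₁ - d₂)) :
    n₁ + n₂ ≤ fr 1 d :=
  (le_fr (by omega)).mpr (av_comp ((le_fr h1).mp hn₁) ((le_fr h2).mp hn₂) hd h)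

/-- If `R^{(s+1)}(2; d) / d` converges then one more colour gives a linear gain. -/
theorem gain_of_tendsto {s : ℕ} {ρ : ℝ}
    (h : Tendsto (fun d : ℕ => (fr s d : ℝ) / d) atTop (𝓝 ρ)) :
    ∃ c : ℝ, 0 < c ∧ ∀ᶠ d : ℕ in atTop, (fr s d : ℝ) + c * d ≤ fr (s + 1) d := by
  have hρ : 0 ≤ ρ := ge_of_tendsto' h fun d => by positivity
  obtain ⟨M, D₀, hM, hstep⟩ := av_asym (⌈ρ⌉₊ + 1) (⌈ρ⌉₊ + 2)
  have hMR : (2 : ℝ) ≤ M := by exact_mod_cast hM
  have hM0 : (0 : ℝ) < M := by linarith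
  set η : ℝ := 1 / (8 * M) with hη
  have hη0 : 0 < η := by positivity
  have hη1 : η ≤ 1 := by
    rw [hη, div_le_one (by positivity)]
    linarith
  have hev : ∀ᶠ d : ℕ in atTop, |(fr s d : ℝ) / d - ρ| < η := by
    have := (Metric.tendsto_nhds.mp h) η hη0
    simpa [Real.dist_eq] using this
  obtain ⟨N, hN⟩ := eventually_atTop.mp hev
  refine ⟨1 / M, by positivity, ?_⟩
  filter_upwards [eventually_ge_atTop (max (max D₀ (2 * N + 2)) (4 * M))] with d hd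
  have hdD : D₀ ≤ d := le_trans (le_trans (le_max_left _ _) (le_max_left _ _)) hd
  have hdN : 2 * N + 2 ≤ d := le_trans (le_trans (le_max_right _ _) (le_max_left _ _)) hd
  have hdM : 4 * M ≤ d := le_trans (le_max_right _ _) hd
  have hq2 : 2 * (d / M) ≤ d := by
    have h1 : d / M * M ≤ d := Nat.div_mul_le_self d M
    nlinarith
  obtain ⟨q, hq⟩ : ∃ q, q = d / M := ⟨_, rfl⟩
  rw [← hq] at hq2
  have hqle : q ≤ d := by omega
  have hqM : (q : ℝ) * M ≤ d := by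
    rw [hq]; exact_mod_cast Nat.div_mul_le_self d M
  have hqM2 : (d : ℝ) < (q + 1) * M := by
    have := Nat.lt_div_mul_add (a := d) (b := M) (by omega)
    have h2 : (d : ℝ) < ((d / M * M + M : ℕ) : ℝ) := by exact_mod_cast this
    rw [← hq] at h2
    push_cast at h2
    linarith
  have hd'1 : 1 ≤ d - q := by omega
  have hd'N : N ≤ d - q := by omega
  have hb := hN (d - q) hd'N
  have ha := hN d (by omega)
  have hdpos : (0 : ℝ) < d := by
    have : 0 < d := by omega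
    exact_mod_cast this
  have hd'pos : (0 : ℝ) < ((d - q : ℕ) : ℝ) := by exact_mod_cast hd'1
  have hcast : ((d - q : ℕ) : ℝ) = d - q := by push_cast [Nat.cast_sub hqle]; ring
  rw [abs_lt] at ha hb
  have hb1 : (ρ - η) * ((d - q : ℕ) : ℝ) ≤ fr s (d - q) := by
    have : ρ - η ≤ (fr s (d - q) : ℝ) / ((d - q : ℕ) : ℝ) := by linarith
    rwa [le_div_iff₀ hd'pos] at this
  have hb2 : (fr s (d - q) : ℝ) ≤ (ρ + η) * ((d - q : ℕ) : ℝ) := by
    have : (fr s (d - q) : ℝ) / ((d - q : ℕ) : ℝ) ≤ ρ + η := by linarith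
    rwa [div_le_iff₀ hd'pos] at this
  have ha2 : (fr s d : ℝ) ≤ (ρ + η) * d := by
    have : (fr s d : ℝ) / (d : ℝ) ≤ ρ + η := by linarith
    rwa [div_le_iff₀ hdpos] at this
  have hceil := Nat.le_ceil ρ
  have hq0 : (0 : ℝ) ≤ q := Nat.cast_nonneg q
  have hnK : fr s (d - q) ≤ (⌈ρ⌉₊ + 1) * d := by
    have : (fr s (d - q) : ℝ) ≤ ((⌈ρ⌉₊ + 1 : ℕ) : ℝ) * d := by
      push_cast
      calc (fr s (d - q) : ℝ) ≤ (ρ + η) * ((d - q : ℕ) : ℝ) := hb2
        _ ≤ (⌈ρ⌉₊ + 1) * d := by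
          rw [hcast]
          apply mul_le_mul (by linarith) (by linarith) (by linarith) (by positivity)
    exact_mod_cast this
  have hav : Av s (d - d / M) (fr s (d - q)) := by
    rw [← hq]
    exact (le_fr hd'1).mp le_rfl
  have hav2 := hstep s d _ hdD hnK hav
  rw [← hq] at hav2
  have hfin := (le_fr (by omega)).mpr hav2
  have hfinR : (fr s (d - q) : ℝ) + (⌈ρ⌉₊ + 2) * q ≤ fr (s + 1) d := by exact_mod_cast hfin
  rw [hcast] at hb1
  -- `(ρ - η)(d - q) + (⌈ρ⌉ + 2) q ≥ (ρ - η) d + 2 q`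
  have h1 : (ρ - η) * d + 2 * q ≤ fr (s + 1) d := by
    have : (ρ - η) * d + 2 * q ≤ (ρ - η) * (d - q) + (⌈ρ⌉₊ + 2) * q := by
      have : (ρ - η) * q ≤ ⌈ρ⌉₊ * q := mul_le_mul_of_nonneg_right (by linarith) hq0
      nlinarith
    linarith
  have h2 : (d : ℝ) / M - 1 ≤ q := by
    have : (d : ℝ) / M ≤ q + 1 := by
      rw [div_le_iff₀ hM0]
      linarith
    linarith
  have h3 : 2 * η * d = (1 / 4) * (d / M) := by
    rw [hη]; field_simp; ring
  have h4 : (4 : ℝ) ≤ d / M := by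
    rw [le_div_iff₀ hM0]
    exact_mod_cast hdM
  have h5 : 1 / (M : ℝ) * d = d / M := by ring
  rw [h5]
  nlinarith

/-- **Theorem A.** Either `R(2, d) / d → ∞` or `R(2, 2, d) ≥ R(2, d) + c d` for all large `d`. -/
theorem main_A : Tendsto (fun d : ℕ => (ramseyF2 2 d : ℝ) / d) atTop atTop ∨
    ∃ c : ℝ, 0 < c ∧ ∀ᶠ d : ℕ in atTop, (ramseyF2 2 d : ℝ) + c * d ≤ ramseyF2 3 d := by
  by_cases hfin : ∃ C : ℕ, ∃ᶠ d in atTop, fr 1 d ≤ C * d
  · right
    obtain ⟨ρ, hρ⟩ := fekete_limit (fr 1) (fr_mono 1) fr_sup hfin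
    obtain ⟨c, hc, h⟩ := gain_of_tendsto hρ
    refine ⟨c, hc, ?_⟩
    filter_upwards [h, eventually_ge_atTop 1] with d hd hd1
    have h1 := ramsey_eq (s := 1) hd1
    have h2 := ramsey_eq (s := 2) hd1
    rw [show (2 : ℕ) = 1 + 1 from rfl, show (3 : ℕ) = 2 + 1 from rfl, h1, h2]
    push_cast
    linarith
  · left
    push Not at hfin
    rw [tendsto_atTop]
    intro b
    have h1 := hfin ⌈b⌉₊
    filter_upwards [h1, eventually_ge_atTop 1] with d hd hd1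
    have hdpos : (0 : ℝ) < d := by exact_mod_cast hd1
    rw [le_div_iff₀ hdpos]
    have h2 := ramsey_eq (s := 1) hd1
    rw [show (2 : ℕ) = 1 + 1 from rfl, h2]
    have h3 : ((⌈b⌉₊ * d : ℕ) : ℝ) < fr 1 d := by exact_mod_cast hd
    push_cast at h3 ⊢
    have h4 : b * d ≤ ⌈b⌉₊ * d := mul_le_mul_of_nonneg_right (Nat.le_ceil b) hdpos.le
    linarith

end Pool.Agent.RF
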