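import Mathlib
import Pool.Agent.Helper74.RF.MainA

/-!
# The dichotomy for every number of colours
-/

set_option autoImplicit false

namespace Pool.Agent.RF

open Filter Topology Pool.Agent.Helper22.SR

/-- One step at scale `D`. -/
theorem step_scale {s D F μ C d n : ℕ} (hμ : 1 ≤ μ) (hC : 3 ≤ C) (hDμ : D < 2 ^ μ) (hD1 : 1 ≤ D)
    (hFD : D ≤ F) (hF2 : F ≤ D ^ 2) (hC2 : 166400 * (C * C * (F * μ)) ≤ D * D)
    (hd1 : D ≤ 2 * d) (hd2 : d ≤ D) (hn : n ≤ F) (hA : Av s (d - 12 * μ) n) :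
    Av (s + 1) d (n + 12 * C * μ) := by
  have hCμ : 166400 * (C * (C * μ)) ≤ D := by
    have h1 : 166400 * (C * (C * μ)) * D ≤ 166400 * (C * (C * μ)) * F :=
      Nat.mul_le_mul_left _ hFD
    have h2 : 166400 * (C * (C * μ)) * D ≤ D * D := by
      calc _ ≤ 166400 * (C * (C * μ)) * F := h1
        _ = 166400 * (C * C * (F * μ)) := by ring
        _ ≤ D * D := hC2
    exact Nat.le_of_mul_le_mul_right h2 (by omega)
  have hCμ1 : C * μ ≤ C * (C * μ) := Nat.le_mul_of_pos_left _ (by omega)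
  have hC1 : C ≤ C * μ := Nat.le_mul_of_pos_right _ (by omega)
  have hμ1 : μ ≤ C * μ := Nat.le_mul_of_pos_left _ (by omega)
  obtain ⟨e, he⟩ : ∃ e, e = D / (400 * C) := ⟨_, rfl⟩
  have he1 : 400 * C * e ≤ D := by rw [he]; exact Nat.mul_div_le _ _
  have he0 : 1 ≤ e := by
    rw [he, Nat.one_le_div_iff (by omega)]
    omega
  have he2 : D < 800 * (C * e) := by
    have h1 : D < D / (400 * C) * (400 * C) + 400 * C := Nat.lt_div_mul_add (by omega)
    rw [← he] at h1
    have h2 : 400 * C ≤ e * (400 * C) := Nat.le_mul_of_pos_left _ he0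
    have h3 : e * (400 * C) = 400 * (C * e) := by ring
    omega
  obtain ⟨t, ht⟩ : ∃ t, t = F / e + 1 := ⟨_, rfl⟩
  have hte1 : F < t * e := by
    have h1 : F < F / e * e + e := Nat.lt_div_mul_add he0
    rw [ht, add_mul, one_mul]
    exact h1
  have heF : e ≤ F := by
    have : e ≤ D := by rw [he]; exact Nat.div_le_self _ _
    omega
  have hte2 : t * e ≤ 2 * F := by
    have h1 : F / e * e ≤ F := Nat.div_mul_le_self _ _
    rw [ht, add_mul, one_mul]
    omega
  have htD : t * (26 * C * μ) * 4 ≤ D := by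
    have h1 : t * (26 * C * μ) * 4 * D ≤ t * (26 * C * μ) * 4 * (800 * (C * e)) :=
      Nat.mul_le_mul_left _ he2.le
    have h2 : t * (26 * C * μ) * 4 * (800 * (C * e)) = 83200 * (C * C * μ) * (t * e) := by ring
    have h3 : 83200 * (C * C * μ) * (t * e) ≤ 83200 * (C * C * μ) * (2 * F) :=
      Nat.mul_le_mul_left _ hte2
    have h4 : 83200 * (C * C * μ) * (2 * F) = 166400 * (C * C * (F * μ)) := by ring
    have h5 : t * (26 * C * μ) * 4 * D ≤ D * D := by
      rw [h2] at h1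
      rw [h4] at h3
      exact h1.trans (h3.trans hC2)
    exact Nat.le_of_mul_le_mul_right h5 (by omega)
  have hpow : D ^ 2 < 2 ^ (2 * μ) := by
    rw [mul_comm, pow_mul]
    exact Nat.pow_lt_pow_left hDμ (by norm_num)
  apply av_gain (d' := d - 12 * μ) (t := t) (e := e) (D := 26 * C * μ) hA
  · omega
  · exact hμ
  · omega
  · rw [ht]; exact Nat.le_add_left 1 _
  · have h1 : t ≤ D ^ 2 + 1 := by
      have : F / e ≤ F := Nat.div_le_self _ _
      omega
    have h2 : 2 ^ (2 * μ) ≤ 2 ^ (2 * μ ^ 2) := by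
      apply Nat.pow_le_pow_right (by norm_num)
      apply Nat.mul_le_mul_left
      rw [sq]
      exact Nat.le_mul_of_pos_left _ (by omega)
    omega
  · omega
  · have h1 : 48 * C * e * 25 ≤ 3 * D := by
      have : 48 * C * e * 25 = 3 * (400 * C * e) := by ring
      rw [this]
      exact Nat.mul_le_mul_left _ he1
    have h2 : 12 * C * μ * 13000 ≤ D := by
      have : 12 * C * μ * 13000 = 156000 * (C * μ) := by ring
      omega
    omega
  · have : 12 * C * μ = 12 * (C * μ) := by ring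
    have h2 : 26 * C * μ = 26 * (C * μ) := by ring
    omega
  · have h1 : 26 * C * μ - 12 * C * μ = 12 * C * μ + 2 * C * μ := by
      have e1 : 12 * C * μ = 12 * (C * μ) := by ring
      have e2 : 26 * C * μ = 26 * (C * μ) := by ring
      have e3 : 2 * C * μ = 2 * (C * μ) := by ring
      omega
    rw [h1, pow_add]
    have h2 : d * (n + 12 * C * μ) ≤ 2 * D ^ 3 := by
      have e1 : 12 * C * μ = 12 * (C * μ) := by ring
      have h3 : n + 12 * C * μ ≤ 2 * D ^ 2 := by
        have : D ≤ D ^ 2 := Nat.le_self_pow (by norm_num) _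
        omega
      calc d * (n + 12 * C * μ) ≤ D * (2 * D ^ 2) := Nat.mul_le_mul hd2 h3
        _ = 2 * D ^ 3 := by ring
    have h4 : 2 * D ^ 3 + 1 ≤ 2 ^ (2 * C * μ) := by
      have h5 : D ^ 3 < 2 ^ (3 * μ) := by
        rw [mul_comm, pow_mul]
        exact Nat.pow_lt_pow_left hDμ (by norm_num)
      have h6 : 2 ^ (3 * μ + 1) ≤ 2 ^ (2 * C * μ) := by
        apply Nat.pow_le_pow_right (by norm_num)
        have : 6 * μ ≤ 2 * C * μ := Nat.mul_le_mul_right _ (by omega)
        omega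
      rw [pow_succ] at h6
      omega
    have h5 : 1 ≤ 2 ^ (12 * C * μ) := Nat.one_le_two_pow
    calc 2 ^ (12 * C * μ) * (d * (n + 12 * C * μ)) + 1
        ≤ 2 ^ (12 * C * μ) * (2 * D ^ 3) + 2 ^ (12 * C * μ) * 1 := by
          apply Nat.add_le_add
          · exact Nat.mul_le_mul_left _ h2
          · omega
      _ = 2 ^ (12 * C * μ) * (2 * D ^ 3 + 1) := by ring
      _ ≤ 2 ^ (12 * C * μ) * 2 ^ (2 * C * μ) := Nat.mul_le_mul_left _ h4

/-- Iterating the step from `D` down to `D / 2`. -/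
theorem chain_scale {s D μ C K : ℕ} (hμ : 1 ≤ μ) (hC : 3 ≤ C) (hDμ : D < 2 ^ μ) (hD1 : 1 ≤ D)
    (hFD : D ≤ fr s D) (hF2 : fr s D ≤ D ^ 2)
    (hC2 : 166400 * (C * C * (fr s D * μ)) ≤ D * D)
    (hK : ∀ d, D ≤ 2 * d → d ≤ D → fr (s + 1) d ≤ fr s d + K) (j : ℕ) (hj : 24 * μ * j ≤ D) :
    j * (12 * C * μ - K) + fr s (D - 12 * μ * j) ≤ fr s D := by
  induction j with
  | zero => simp
  | succ j ih =>
    have h1 : 24 * μ * (j + 1) = 24 * μ * j + 24 * μ := by ring
    have h2 : 12 * μ * (j + 1) = 12 * μ * j + 12 * μ := by ring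
    have h3 : 24 * μ * j = 2 * (12 * μ * j) := by ring
    have ih' := ih (by omega)
    obtain ⟨d, hd⟩ : ∃ d, d = D - 12 * μ * j := ⟨_, rfl⟩
    rw [← hd] at ih'
    have hd1 : D ≤ 2 * d := by omega
    have hd2 : d ≤ D := by omega
    have hd3 : D - 12 * μ * (j + 1) = d - 12 * μ := by omega
    have hd4 : 1 ≤ d - 12 * μ := by omega
    have hA : Av s (d - 12 * μ) (fr s (d - 12 * μ)) := (le_fr hd4).mp le_rfl
    have hn : fr s (d - 12 * μ) ≤ fr s D := fr_mono s (by omega)
    have h5 := (le_fr (by omega)).mpr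
      (step_scale hμ hC hDμ hD1 hFD hF2 hC2 hd1 hd2 hn hA)
    have h6 := hK d hd1 hd2
    rw [hd3]
    have h7 : (j + 1) * (12 * C * μ - K) = j * (12 * C * μ - K) + (12 * C * μ - K) := by ring
    have h8 : fr s (d - 12 * μ) ≤ fr s d := fr_mono s (by omega)
    omega

theorem le_fr_self {s D : ℕ} (hs : 1 ≤ s) (hD : 1 ≤ D) : D ≤ fr s D :=
  (le_fr hD).mpr (av_self hs hD)

/-- The inequality at scale `D`. -/
theorem growth_scale {s D μ K : ℕ} (hs : 1 ≤ s) (hμ : 1 ≤ μ) (hDμ : D < 2 ^ μ) (hD1 : 1 ≤ D)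
    (hKμ : K ≤ μ)
    (hK : ∀ d, D ≤ 2 * d → d ≤ D → fr (s + 1) d ≤ fr s d + K) :
    D ^ 4 ≤ 21299200 * (fr s D ^ 3 * μ) := by
  obtain ⟨F, hF⟩ : ∃ F, F = fr s D := ⟨_, rfl⟩
  have hFD : D ≤ F := by rw [hF]; exact le_fr_self hs hD1
  rw [← hF]
  by_cases hF2 : F ≤ D ^ 2
  · obtain ⟨x, hx⟩ : ∃ x, x = 166400 * (F * μ) := ⟨_, rfl⟩
    have hx0 : 0 < x := by
      rw [hx]
      have : 0 < F * μ := Nat.mul_pos (by omega) (by omega)
      omega
    obtain ⟨C, hC⟩ : ∃ C, C = Nat.sqrt (D * D / x) := ⟨_, rfl⟩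
    have hC1 : C * C ≤ D * D / x := by rw [hC]; exact Nat.sqrt_le _
    have hC2 : D * D / x < (C + 1) * (C + 1) := by rw [hC]; exact Nat.lt_succ_sqrt _
    have hC3 : C * C * x ≤ D * D := by
      calc C * C * x ≤ D * D / x * x := Nat.mul_le_mul_right _ hC1
        _ ≤ D * D := Nat.div_mul_le_self _ _
    have hC4 : D * D < (C + 1) * (C + 1) * x := by
      rwa [Nat.div_lt_iff_lt_mul hx0] at hC2
    by_cases hC5 : 3 ≤ C
    · have hC6 : 166400 * (C * C * (F * μ)) ≤ D * D := by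
        calc 166400 * (C * C * (F * μ)) = C * C * x := by rw [hx]; ring
          _ ≤ D * D := hC3
      obtain ⟨J, hJ⟩ : ∃ J, J = D / (24 * μ) := ⟨_, rfl⟩
      have hJ1 : 24 * μ * J ≤ D := by rw [hJ]; exact Nat.mul_div_le _ _
      have hJ2 : D < J * (24 * μ) + 24 * μ := by
        rw [hJ]; exact Nat.lt_div_mul_add (by omega)
      have hDμ2 : 24 * μ ≤ D := by
        have h1 : 166400 * (C * C * (F * μ)) = 166400 * (C * C * μ) * F := by ring
        have h2 : 166400 * (C * C * μ) * D ≤ D * D := by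
          calc _ ≤ 166400 * (C * C * μ) * F := Nat.mul_le_mul_left _ hFD
            _ ≤ D * D := by rw [← h1]; exact hC6
        have h3 : 166400 * (C * C * μ) ≤ D := Nat.le_of_mul_le_mul_right h2 (by omega)
        have h4 : μ ≤ C * C * μ := Nat.le_mul_of_pos_left _ (Nat.mul_pos (by omega) (by omega))
        omega
      have hJ3 : 1 ≤ J := by
        rw [hJ, Nat.one_le_div_iff (by omega)]
        exact hDμ2
      have hch := chain_scale (s := s) (K := K) hμ hC5 hDμ hD1 (by rw [← hF]; exact hFD)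
        (by rw [← hF]; exact hF2) (by rw [← hF]; exact hC6) hK J hJ1
      rw [← hF] at hch
      have hCμ : C * μ ≤ 12 * C * μ - K := by
        have e1 : 12 * C * μ = 12 * (C * μ) := by ring
        have e2 : μ ≤ C * μ := Nat.le_mul_of_pos_left _ (by omega)
        omega
      have hCμ6 : 6 * (C * μ) ≤ 12 * C * μ - K := by
        have e1 : 12 * C * μ = 12 * (C * μ) := by ring
        have e2 : μ ≤ C * μ := Nat.le_mul_of_pos_left _ (by omega)
        omega
      have h1 : J * (6 * (C * μ)) ≤ F := by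
        have := Nat.mul_le_mul_left J hCμ6
        omega
      have h2 : C * D ≤ 8 * F := by
        have h3 : D ≤ 48 * (μ * J) := by
          have e1 : J * (24 * μ) = 24 * (μ * J) := by ring
          have e2 : μ ≤ μ * J := Nat.le_mul_of_pos_right _ (by omega)
          omega
        calc C * D ≤ C * (48 * (μ * J)) := Nat.mul_le_mul_left _ h3
          _ = 8 * (J * (6 * (C * μ))) := by ring
          _ ≤ 8 * F := Nat.mul_le_mul_left _ h1
      have h3 : (C + 1) * (C + 1) ≤ 2 * (C * C) := by nlinarith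
      have h4 : D * D ≤ 2 * (C * C) * x := by
        calc D * D ≤ (C + 1) * (C + 1) * x := hC4.le
          _ ≤ 2 * (C * C) * x := Nat.mul_le_mul_right _ h3
      calc D ^ 4 = D * D * (D * D) := by ring
        _ ≤ 2 * (C * C) * x * (D * D) := Nat.mul_le_mul_right _ h4
        _ = 332800 * (F * μ) * ((C * D) * (C * D)) := by rw [hx]; ring
        _ ≤ 332800 * (F * μ) * ((8 * F) * (8 * F)) :=
          Nat.mul_le_mul_left _ (Nat.mul_le_mul h2 h2)
        _ = 21299200 * (F ^ 3 * μ) := by ring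
    · have h1 : (C + 1) * (C + 1) ≤ 9 := by
        have : C + 1 ≤ 3 := by omega
        calc (C + 1) * (C + 1) ≤ 3 * 3 := Nat.mul_le_mul this this
          _ = 9 := by norm_num
      have h2 : D * D ≤ 9 * x := by
        calc D * D ≤ (C + 1) * (C + 1) * x := hC4.le
          _ ≤ 9 * x := Nat.mul_le_mul_right _ h1
      calc D ^ 4 = D * D * (D * D) := by ring
        _ ≤ 9 * x * (F * F) := Nat.mul_le_mul h2 (Nat.mul_le_mul hFD hFD)
        _ = 1497600 * (F ^ 3 * μ) := by rw [hx]; ring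
        _ ≤ 21299200 * (F ^ 3 * μ) := Nat.mul_le_mul_right _ (by norm_num)
  · push Not at hF2
    calc D ^ 4 = D ^ 2 * D ^ 2 := by ring
      _ ≤ F * F := Nat.mul_le_mul hF2.le hF2.le
      _ ≤ 21299200 * (F ^ 3 * μ) := by
        have h1 : F * F ≤ F * F * (F * μ) :=
          Nat.le_mul_of_pos_right _ (Nat.mul_pos (by omega) (by omega))
        have h2 : F * F * (F * μ) = F ^ 3 * μ := by ring
        omega

/-- **Theorem B.** For every `r ≥ 3`: either `limsup (R^{(r)} - R^{(r-1)}) = ∞` or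
`R^{(r-1)}(2; d) ≥ c d^{4/3} / (log d)^{1/3}` for all large `d`. -/
theorem main_B (r : ℕ) (hr : 3 ≤ r) :
    (∀ K : ℕ, ∃ᶠ d : ℕ in atTop, ramseyF2 (r - 1) d + K ≤ ramseyF2 r d) ∨
    ∃ c : ℝ, 0 < c ∧ ∀ᶠ d : ℕ in atTop,
      c * (d : ℝ) ^ 4 ≤ (ramseyF2 (r - 1) d : ℝ) ^ 3 * Real.log d := by
  obtain ⟨s, rfl⟩ : ∃ s, r = s + 2 := ⟨r - 2, by omega⟩
  have hs : 1 ≤ s := by omega
  rw [show s + 2 - 1 = s + 1 by omega]
  by_cases h : ∀ K : ℕ, ∃ᶠ d : ℕ in atTop, ramseyF2 (s + 1) d + K ≤ ramseyF2 (s + 2) d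
  · exact Or.inl h
  · right
    push Not at h
    obtain ⟨K, hK⟩ := h
    obtain ⟨N, hN⟩ := eventually_atTop.mp hK
    refine ⟨1 / (3 * 21299200), by norm_num, ?_⟩
    filter_upwards [eventually_ge_atTop (max (2 * N + 2) (2 ^ (K + 2)))] with D hD
    have hD1 : 2 * N + 2 ≤ D := le_trans (le_max_left _ _) hD
    have hD2 : 2 ^ (K + 2) ≤ D := le_trans (le_max_right _ _) hD
    obtain ⟨μ, hμ⟩ : ∃ μ, μ = Nat.log 2 D + 1 := ⟨_, rfl⟩
    have hDμ : D < 2 ^ μ := by rw [hμ]; exact Nat.lt_pow_succ_log_self (by norm_num) _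
    have hμK : K + 3 ≤ μ := by
      have : K + 2 ≤ Nat.log 2 D := Nat.le_log_of_pow_le (by norm_num) hD2
      omega
    have hgr := growth_scale (s := s) (D := D) (μ := μ) (K := K) hs (by omega) hDμ (by omega)
      (by omega) (by
        intro d hd1 hd2
        have h1 := hN d (by omega)
        have h2 := ramsey_eq (s := s) (d := d) (by omega)
        have h3 := ramsey_eq (s := s + 1) (d := d) (by omega)
        rw [show s + 1 + 1 = s + 2 by omega] at h3
        omega)
    have hDpos : (0 : ℝ) < D := by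
      have : 0 < D := by omega
      exact_mod_cast this
    have hlog : (Nat.log 2 D : ℝ) * Real.log 2 ≤ Real.log D := by
      have h1 : ((2 ^ Nat.log 2 D : ℕ) : ℝ) ≤ D := by
        exact_mod_cast Nat.pow_log_le_self 2 (by omega)
      have h2 := Real.log_le_log (by positivity) h1
      push_cast at h2
      rwa [Real.log_pow] at h2
    have hlog2 : (0.6931471803 : ℝ) < Real.log 2 := Real.log_two_gt_d9
    have hμlog : (μ : ℝ) ≤ 3 * Real.log D := by
      have h1 : (2 : ℝ) ≤ Nat.log 2 D := by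
        have : 2 ≤ Nat.log 2 D := by omega
        exact_mod_cast this
      rw [hμ]
      push_cast
      nlinarith
    have hfr : (fr s D : ℝ) ≤ ramseyF2 (s + 1) D := by
      rw [fr]
      exact_mod_cast Nat.sub_le _ _
    have h1 : (D : ℝ) ^ 4 ≤ 21299200 * ((fr s D : ℝ) ^ 3 * μ) := by exact_mod_cast hgr
    have h2 : (fr s D : ℝ) ^ 3 * μ ≤ (ramseyF2 (s + 1) D : ℝ) ^ 3 * (3 * Real.log D) := by
      apply mul_le_mul
      · exact pow_le_pow_left₀ (Nat.cast_nonneg _) hfr 3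
      · exact hμlog
      · exact Nat.cast_nonneg _
      · positivity
    have h3 : (D : ℝ) ^ 4 ≤ 21299200 * ((ramseyF2 (s + 1) D : ℝ) ^ 3 * (3 * Real.log D)) := by
      linarith
    linarith

end Pool.Agent.RF
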